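import Pool.Agent.Lib_MP_70e04f_cre.BaseZ

/-!
# Systems in standard form
-/

namespace Pool.MP_70e04f_ag.Cre

open MvPolynomial Pool.MP_70e04f_ag.Hex Pool.MP_70e04f_ag.Add Pool.MP_70e04f_ag.Nine
  Pool.MP_70e04f_ag.Hal

/-- The nine largest multiplicities. -/
theorem exists_sorted {n : ℕ} (mm : Fin n → ℕ) (α : Fin 9 → Fin n) (hα : Function.Injective α) :
    ∃ β : Fin 9 → Fin n, Function.Injective β ∧ Antitone (fun j => mm (β j)) ∧
      ∀ i, i ∉ Set.range β → mm i ≤ mm (β 8) := by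
  have hn : 9 ≤ n := by simpa using Fintype.card_le_of_injective α hα
  obtain ⟨σ, hσ⟩ : ∃ σ : Equiv.Perm (Fin n), Antitone (fun i => mm (σ i)) := by
    refine ⟨Tuple.sort (fun i => OrderDual.toDual (mm i)), ?_⟩
    intro a b hab
    exact Tuple.monotone_sort (fun i => OrderDual.toDual (mm i)) hab
  refine ⟨fun j => σ (Fin.castLE hn j), ?_, ?_, ?_⟩
  · intro a b hab
    exact Fin.castLE_injective hn (σ.injective hab)
  · intro a b hab
    exact hσ (show Fin.castLE hn a ≤ Fin.castLE hn b from hab)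
  · intro i hi
    obtain ⟨k, rfl⟩ := σ.surjective i
    apply hσ
    by_contra hcon
    apply hi
    rw [Fin.le_def, not_le] at hcon
    have hk : (k : ℕ) < 8 := hcon
    exact ⟨⟨k, by omega⟩, rfl⟩

/-- Systems in standard form. -/
theorem base {n m d : ℕ} (mm : Fin n → ℕ) (α : Fin 9 → Fin n) (hα : Function.Injective α)
    (hother : ∀ i, i ∉ Set.range α → mm i ≤ m)
    (h3 : ∀ ι : Fin 3 → Fin n, Function.Injective ι → ∑ j, mm (ι j) ≤ d)
    (hsq : ∑ i, mm i ^ 2 + 3100 * m ^ 3 ≤ d ^ 2) : GenExp d mm := by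
  classical
  obtain ⟨β, hβ, hanti, hβ8⟩ := exists_sorted mm α hα
  by_cases hz : ∀ i, i ∉ Set.range β → mm i = 0
  · exact base_nine mm β hβ hz h3
  push Not at hz
  obtain ⟨i1, hi1, hi1'⟩ := hz
  obtain ⟨i0, hi0, hmax⟩ := Finset.exists_max_image (Finset.univ.filter fun i => i ∉ Set.range β)
    mm ⟨i1, by simpa using hi1⟩
  have hi0' : i0 ∉ Set.range β := (Finset.mem_filter.1 hi0).2
  have hmax' : ∀ i, i ∉ Set.range β → mm i ≤ mm i0 := fun i hi =>
    hmax i (Finset.mem_filter.2 ⟨Finset.mem_univ i, hi⟩)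
  have hpos : 1 ≤ mm i0 := (Nat.one_le_iff_ne_zero.2 hi1').trans (hmax' i1 hi1)
  have h08 : mm i0 ≤ mm (β 8) := hβ8 i0 hi0'
  -- the tenth multiplicity is at most `m`
  have hm : mm i0 ≤ m := by
    by_contra hcon
    push Not at hcon
    have hin : ∀ i, mm i0 ≤ mm i → i ∈ Finset.univ.image α := by
      intro i hi
      by_contra h
      have h1 := hother i (by
        rintro ⟨t, rfl⟩
        exact h (Finset.mem_image_of_mem α (Finset.mem_univ t)))
      omega
    have hsub : insert i0 (Finset.univ.image β) ⊆ Finset.univ.image α := by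
      intro i hi
      rw [Finset.mem_insert, Finset.mem_image] at hi
      apply hin
      rcases hi with rfl | ⟨t, _, rfl⟩
      · exact le_rfl
      · exact h08.trans (hanti (show t ≤ 8 by omega))
    have hc := Finset.card_le_card hsub
    rw [Finset.card_insert_of_notMem (by
      intro h
      rw [Finset.mem_image] at h
      obtain ⟨t, _, ht⟩ := h
      exact hi0' ⟨t, ht⟩), Finset.card_image_of_injective _ hβ,
      Finset.card_image_of_injective _ hα] at hc
    simp at hc
  have h9 : ∑ j, mm (β j) ≤ 3 * d :=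
    sum_nine (Finset.univ : Finset (Fin 9)) (by simp) (fun t => mm (β t)) d
      (card_three_le mm β hβ h3)
  obtain ⟨κ, hκ⟩ : ∃ κ, ∑ j, mm (β j) + κ = 3 * d := ⟨3 * d - ∑ j, mm (β j), by omega⟩
  refine gen_nine_all (mm i0) d d κ mm β hβ hanti hpos h08 hmax' ?_ hκ (Or.inl ?_) (Or.inl rfl)
  · have h := h3 ![β 0, β 1, β 2] (by
      intro a b hab
      fin_cases a <;> fin_cases b <;> first | rfl | (exfalso; simp [hβ.eq_iff] at hab))
    rw [Fin.sum_univ_three] at h
    exact h
  · have h1 : ∑ j, mm (β j) ^ 2 ≤ ∑ i, mm i ^ 2 := by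
      rw [← Finset.sum_image (f := fun i => mm i ^ 2) (fun a _ b _ hab => hβ hab)]
      exact Finset.sum_le_sum_of_subset (Finset.subset_univ _)
    have h2 : mm i0 ^ 3 ≤ m ^ 3 := Nat.pow_le_pow_left hm 3
    omega

end Pool.MP_70e04f_ag.Cre
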