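import Pool.Agent.Lib_MP_70e04f_hal.HFinal

/-!
# Systems with at most nine points
-/

namespace Pool.MP_70e04f_ag.Cre

open MvPolynomial Pool.MP_70e04f_ag.Hex Pool.MP_70e04f_ag.Add Pool.MP_70e04f_ag.Nine
  Pool.MP_70e04f_ag.Hal

lemma card_three_le {n d : ℕ} (mm : Fin n → ℕ) (β : Fin 9 → Fin n) (hβ : Function.Injective β)
    (h3 : ∀ ι : Fin 3 → Fin n, Function.Injective ι → ∑ j, mm (ι j) ≤ d) (U : Finset (Fin 9))
    (hU : U.card ≤ 3) : ∑ t ∈ U, mm (β t) ≤ d := by
  obtain ⟨V, hUV, hV⟩ := Finset.exists_superset_card_eq hU (by simp)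
  refine (Finset.sum_le_sum_of_subset hUV).trans ?_
  have h1 := h3 (fun j => β (V.orderEmbOfFin hV j))
    (fun a b hab => (V.orderEmbOfFin hV).injective (hβ hab))
  refine le_trans (le_of_eq ?_) h1
  rw [← Finset.sum_coe_sort V]
  exact (Fintype.sum_equiv (V.orderIsoOfFin hV).toEquiv _ _ (fun j => rfl)).symm

lemma ok_zero {τ : Type*} [Fintype τ] {n N : ℕ} {mT : τ → ℕ} {q : τ → Fin 2 → ℝ}
    (h0 : 2 * hT N mT q + ∑ t, mT t * (mT t + 1) = N * (N + 1)) :
    OK (tri N) (Sum.elim mT (fun _ : Fin n => 0)) := by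
  apply sum_ok (q := q) _ h0 (fun _ _ => 0)
  have hfd : FiniteDimensional ℝ ↥(Lsys N mT q) := by
    unfold Lsys
    infer_instance
  have h9 : Fintype.card (Σ _i : Fin n, ↥(tri 0)) = 0 := by
    rw [Fintype.card_eq_zero_iff]
    constructor
    rintro ⟨i, x⟩
    exact absurd (mem_tri.1 x.2) (Nat.not_lt_zero _)
  rw [h9, Nat.sub_zero]
  unfold hT
  exact Submodule.finrank_mono inf_le_left

/-- Nine points, standard form. -/
theorem base_nine {n d : ℕ} (mm : Fin n → ℕ) (β : Fin 9 → Fin n) (hβ : Function.Injective β)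
    (hother : ∀ i, i ∉ Set.range β → mm i = 0)
    (h3 : ∀ ι : Fin 3 → Fin n, Function.Injective ι → ∑ j, mm (ι j) ≤ d) : GenExp d mm := by
  classical
  apply genExp_of_OK
  apply tri_of_nine (d + 1) mm β hβ
  have h4 := card_three_le mm β hβ h3
  let e : Fin 9 → ℝ := fun t => ((t : ℕ) : ℝ) + 2
  have he : Function.Injective e := by
    intro a b hab
    have h1 : ((a : ℕ) : ℝ) = ((b : ℕ) : ℝ) := by simpa [e] using hab
    exact Fin.ext (Nat.cast_injective h1)
  have he0 : ∀ t, 0 < e t := by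
    intro t
    have : (0 : ℝ) ≤ ((t : ℕ) : ℝ) := Nat.cast_nonneg _
    simp only [e]
    linarith
  have hstd : Std (d + 1) (fun t : Fin 9 => mm (β t)) := by
    constructor
    · intro U hU
      change ∑ t ∈ U, mm (β t) + 1 ≤ d + 1
      have := h4 U hU
      omega
    · change ∑ t, mm (β t) + 3 ≤ 3 * (d + 1)
      have := sum_nine (Finset.univ : Finset (Fin 9)) (by simp) (fun t => mm (β t)) d h4
      change ∑ t, mm (β t) ≤ 3 * d at this
      omega
  have h5 := hstd.hT_le he he0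
  have h6 := hT_ge (d + 1) (fun t : Fin 9 => mm (β t)) (cpt e)
  have h7 := le_antisymm h5 h6
  have h8 : (fun i : Fin n => if i ∈ Finset.univ.image β then 0 else mm i) = fun _ => 0 := by
    funext i
    split_ifs with h
    · rfl
    · apply hother
      rintro ⟨t, rfl⟩
      exact h (Finset.mem_image_of_mem β (Finset.mem_univ t))
  rw [h8]
  exact ok_zero h7

end Pool.MP_70e04f_ag.Cre
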