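import Pool.Agent.Lib_MP_70e04f_cre.Mi

/-!
# Linear changes of coordinates (piece CRLIN)

PAPER PROOF. `HS.smul`: by `mem_mi_smul` (with `c` and with `c⁻¹`; `c⁻¹ • (c • q) = q`) a form is in
`mi (q i) ^ k` if and only if it is in `mi (c i • q i) ^ k`; so `W d m q = W d m (c • q)` and the
second alternative is the same.

`eval_lin`: both sides are algebra homomorphisms in `F` (`MvPolynomial.aeval`, `eval₂Hom` ext,
`MvPolynomial.induction_on`). `lin_comp`: ext on variables. `HS.mat`: let `B = A⁻¹`; `lin A` and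
`lin B` are inverse algebra homomorphisms (`Matrix.mul_nonsing_inv`, `lin_comp`, `lin_one`), they
preserve homogeneity (`IsHomogeneous.aeval` with linear forms), and
`F ∈ mi (q i) ^ k → lin B F ∈ mi (A.mulVec (q i)) ^ k` by `mem_pow_map`, as
`eval (A q) (lin B F) = F (B A q) = F (q)`; conversely
`G ∈ mi (A.mulVec (q i)) ^ k → lin A G ∈ mi (q i) ^ k`. So `lin B` gives an isomorphism
`W d m q ≃ W d m (A q)` and transports the second alternative (an algebra equivalence preserves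
irreducible elements, `MulEquiv.irreducible_iff`).
-/

namespace Pool.MP_70e04f_ag.Cre

open MvPolynomial

theorem eval_lin (A : Matrix (Fin 3) (Fin 3) ℂ) (F : R3) (x : Fin 3 → ℂ) :
    MvPolynomial.eval x (lin A F) = MvPolynomial.eval (A.mulVec x) F := by
  induction F using MvPolynomial.induction_on with
  | C c => rw [lin, aeval_C, MvPolynomial.algebraMap_eq, eval_C, eval_C]
  | add F G hF hG => rw [map_add, map_add, map_add, hF, hG]
  | mul_X F i hF =>
    rw [map_mul, map_mul, map_mul, hF, eval_X]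
    congr 1
    rw [lin, aeval_X, map_sum]
    show _ = ∑ j, A i j * x j
    refine Finset.sum_congr rfl fun j _ => ?_
    rw [map_mul, eval_C, eval_X]

theorem CRLIN_mem_W {n d : ℕ} {m : Fin n → ℕ} {q : Fin n → Fin 3 → ℂ} {F : R3} :
    F ∈ W d m q ↔ F.IsHomogeneous d ∧ ∀ i, F ∈ mi (q i) ^ m i := by
  rw [W, Submodule.mem_inf, Submodule.mem_iInf, mem_homogeneousSubmodule]
  rfl

/-- The alternative depends only on the ideals. -/
theorem CRLIN_transfer {n d : ℕ} {m : Fin n → ℕ} {q q' : Fin n → Fin 3 → ℂ}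
    (φ : R3 ≃ₐ[ℂ] R3) (h1 : ∀ F : R3, ∀ e, (φ F).IsHomogeneous e ↔ F.IsHomogeneous e)
    (h2 : ∀ F : R3, ∀ e, F.IsHomogeneous e → ∀ i j, φ F ∈ mi (q' i) ^ j ↔ F ∈ mi (q i) ^ j)
    (h : HS d m q) : HS d m q' := by
  rcases h with h | ⟨F, e, a, hF, he, ha, hneg⟩
  · left
    have e1 : W d m q' = (W d m q).map (φ.toLinearEquiv : R3 →ₗ[ℂ] R3) := by
      ext G
      rw [Submodule.mem_map, CRLIN_mem_W]
      constructor
      · rintro ⟨hG, hG'⟩
        refine ⟨φ.symm G, ?_, φ.apply_symm_apply G⟩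
        have h3 : (φ.symm G).IsHomogeneous d := by
          rw [← h1, φ.apply_symm_apply]
          exact hG
        refine CRLIN_mem_W.mpr ⟨h3, fun i => ?_⟩
        rw [← h2 _ d h3, φ.apply_symm_apply]
        exact hG' i
      · rintro ⟨F, hF, rfl⟩
        obtain ⟨hF1, hF2⟩ := CRLIN_mem_W.mp hF
        exact ⟨(h1 F d).mpr hF1, fun i => (h2 F d hF1 i _).mpr (hF2 i)⟩
    rw [e1, LinearEquiv.finrank_map_eq]
    exact h
  · right
    refine ⟨φ F, e, a, (MulEquiv.irreducible_iff (φ : R3 ≃* R3)).mpr hF, (h1 F e).mpr he,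
      fun i => ⟨(h2 F e he i _).mpr (ha i).1, fun h3 => (ha i).2 ((h2 F e he i _).mp h3)⟩, hneg⟩

theorem HS.smul {n d : ℕ} {m : Fin n → ℕ} {q : Fin n → Fin 3 → ℂ} (c : Fin n → ℂ)
    (hc : ∀ i, c i ≠ 0) (h : HS d m q) : HS d m (fun i => c i • q i) := by
  refine CRLIN_transfer AlgEquiv.refl (fun F e => Iff.rfl) (fun F e he i j => ?_) h
  show F ∈ mi (c i • q i) ^ j ↔ F ∈ mi (q i) ^ j
  constructor
  · intro h1
    have h2 := mem_mi_smul (inv_ne_zero (hc i)) he h1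
    rwa [smul_smul, inv_mul_cancel₀ (hc i), one_smul] at h2
  · exact mem_mi_smul (hc i) he

theorem CRLIN_hom (A : Matrix (Fin 3) (Fin 3) ℂ) {F : R3} {e : ℕ} (hF : F.IsHomogeneous e) :
    (lin A F).IsHomogeneous e := by
  have h := IsHomogeneous.aeval hF (fun i => ∑ j, C (A i j) * X j : Fin 3 → R3) (n := 1)
    (fun i => IsHomogeneous.sum _ _ _ fun j _ => isHomogeneous_C_mul_X _ _)
  rw [one_mul] at h
  exact h

theorem CRLIN_lin_lin {A B : Matrix (Fin 3) (Fin 3) ℂ} (h : B * A = 1) (F : R3) :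
    lin A (lin B F) = F := by
  refine MvPolynomial.funext fun x => ?_
  rw [eval_lin, eval_lin, Matrix.mulVec_mulVec, h, Matrix.one_mulVec]

theorem HS.mat {n d : ℕ} {m : Fin n → ℕ} {q : Fin n → Fin 3 → ℂ} (A : Matrix (Fin 3) (Fin 3) ℂ)
    (hA : A.det ≠ 0) (h : HS d m q) : HS d m (fun i => A.mulVec (q i)) := by
  have hu : IsUnit A.det := isUnit_iff_ne_zero.mpr hA
  have h1 : A * A⁻¹ = 1 := Matrix.mul_nonsing_inv A hu
  have h2 : A⁻¹ * A = 1 := Matrix.nonsing_inv_mul A hu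
  let φ : R3 ≃ₐ[ℂ] R3 := AlgEquiv.ofAlgHom (lin A⁻¹) (lin A)
    (AlgHom.ext fun F => CRLIN_lin_lin h1 F) (AlgHom.ext fun F => CRLIN_lin_lin h2 F)
  have hφ : ∀ F, φ F = lin A⁻¹ F := fun F => rfl
  refine CRLIN_transfer φ (fun F e => ⟨fun h3 => ?_, fun h3 => ?_⟩)
    (fun F e he i j => ⟨fun h3 => ?_, fun h3 => ?_⟩) h
  · have h4 := CRLIN_hom A h3
    rwa [hφ, CRLIN_lin_lin h2] at h4
  · rw [hφ]
    exact CRLIN_hom _ h3
  · have h4 := mem_pow_map (q' := q i) (lin A) (fun G => eval_lin A G (q i)) h3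
    rwa [hφ, CRLIN_lin_lin h2] at h4
  · rw [hφ]
    refine mem_pow_map (lin A⁻¹) (fun G => ?_) h3
    rw [eval_lin, Matrix.mulVec_mulVec, h2, Matrix.one_mulVec]

end Pool.MP_70e04f_ag.Cre
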