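import Pool.Agent.Lib_MP_70e04f_cre.Defs

/-!
# Numerical lemmas on quadratic transformations (piece CRNUM)

Let `x j = m (ι j)`; the new degree is `d' = d - δ`, the new multiplicities at the three points are
`x j - δ` (natural subtraction; by `hlow` the integer `x j - δ` is at least `-1`).

PAPER PROOF. Split all sums over `Fin n` into the sum over the image of `ι`
(`Finset.sum_image`, `ι` injective; `Fin.sum_univ_three`) and the rest. Work in the integers.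

`dim_cm`: `cm * (cm + 1) = (x j - δ) * (x j - δ + 1)` also if `x j = δ - 1` (both are `0`), and
`∑ j, (x j * (x j + 1) - (x j - δ) * (x j - δ + 1)) = 2 δ (d + δ) + 3 δ - 3 δ ^ 2
= (d + 1) * (d + 2) - (d - δ + 1) * (d - δ + 2)`.
`sq_cm`: `cm ^ 2 ≤ (x j - δ) ^ 2`, `∑ j, (x j - δ) ^ 2 = ∑ x j ^ 2 - 2 δ d + δ ^ 2`.
`light`: if `a i ≥ 1` let `b` be `a` with `b i = a i - 1`; `∑ b ^ 2 = e ^ 2 + 2 - 2 a i ≤ e ^ 2`, so
by Cauchy-Schwarz `(∑ m b) ^ 2 ≤ (∑ m ^ 2) (∑ b ^ 2) ≤ (d e) ^ 2`, and `∑ m b = ∑ m a` as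
`m i = 0`, so `∑ a m ≤ d e`, in contradiction to the third condition of `Neg`.
`neg_cm`: let `b j = a' (ι j)`, `B = ∑ b j`. If `x j = δ - 1` then `cm (ι j) = 0` and `b j = 0` by
`light`, so `cm (ι j) * b j = (x j - δ) * b j` for all `j`. With `e = 2 e' - B`,
`a (ι j) = e' - B + b j`: `e ^ 2 - ∑ a (ι j) ^ 2 = e' ^ 2 - ∑ b j ^ 2`,
`3 e - ∑ a (ι j) = 3 e' - B`, `d e - ∑ a (ι j) x j = (d - δ) e' - ∑ b j (x j - δ)`.
`not_line`: let `{j0, j1, j2} = {0, 1, 2}`; `a' (ι j1) = a' (ι j2) = 1`, so by `light`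
`x j1 ≥ δ` and `x j2 ≥ δ` and `d' - ∑ a' cm = d - δ - (x j1 - δ) - (x j2 - δ) = x j0 ≥ 0`.
-/

namespace Pool.MP_70e04f_ag.Cre

variable {n d d' δ : ℕ} {m : Fin n → ℕ} {ι : Fin 3 → Fin n}

lemma sum_split (hι : Function.Injective ι) (f : Fin n → ℤ) :
    ∑ i, f i = f (ι 0) + f (ι 1) + f (ι 2) + ∑ i ∈ (Finset.univ.image ι)ᶜ, f i := by
  rw [← Finset.sum_add_sum_compl (Finset.univ.image ι) f,
    Finset.sum_image (fun a _ b _ hab => hι hab), Fin.sum_univ_three]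

lemma cm_ι (j : Fin 3) : cm m ι δ (ι j) = m (ι j) - δ :=
  if_pos (Finset.mem_image_of_mem ι (Finset.mem_univ j))

lemma cm_of_notMem {l : Fin n} (h : l ∉ Finset.univ.image ι) : cm m ι δ l = m l := if_neg h

/-- A `(-1)`-class does not pass through a point of multiplicity `0` of a system with
nonnegative self-intersection which it meets negatively. -/
theorem light {e : ℕ} {a : Fin n → ℕ} (hsq : ∑ i, m i ^ 2 ≤ d ^ 2) (h : Neg d m e a) {i : Fin n}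
    (hi : m i = 0) : a i = 0 := by
  by_contra hne
  obtain ⟨h1, -, h3⟩ := h
  obtain ⟨b, hb⟩ : ∃ b : Fin n → ℤ, b = Function.update (fun k => (a k : ℤ)) i ((a i : ℤ) - 1) :=
    ⟨_, rfl⟩
  have hbi : b i = (a i : ℤ) - 1 := by rw [hb]; simp
  have hbk : ∀ k, k ≠ i → b k = (a k : ℤ) := by
    intro k hk
    rw [hb]
    simp [hk]
  have e1 : ∑ k, b k ^ 2 = ∑ k, (a k : ℤ) ^ 2 + (1 - 2 * (a i : ℤ)) := by
    rw [← Finset.add_sum_erase _ _ (Finset.mem_univ i),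
      ← Finset.add_sum_erase (Finset.univ) (fun k => (a k : ℤ) ^ 2) (Finset.mem_univ i), hbi]
    have : ∑ k ∈ Finset.univ.erase i, b k ^ 2 = ∑ k ∈ Finset.univ.erase i, (a k : ℤ) ^ 2 :=
      Finset.sum_congr rfl fun k hk => by rw [hbk k (Finset.ne_of_mem_erase hk)]
    rw [this]
    ring
  have e2 : ∑ k, b k * (m k : ℤ) = ∑ k, (a k : ℤ) * (m k : ℤ) := by
    refine Finset.sum_congr rfl fun k _ => ?_
    by_cases hk : k = i
    · rw [hk, hi]; simp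
    · rw [hbk k hk]
  have hai : (1 : ℤ) ≤ a i := by
    have : 1 ≤ a i := Nat.one_le_iff_ne_zero.2 hne
    exact_mod_cast this
  have e3 : ∑ k, b k ^ 2 ≤ (e : ℤ) ^ 2 := by rw [e1]; linarith
  have hsq' : ∑ k, (m k : ℤ) ^ 2 ≤ (d : ℤ) ^ 2 := by exact_mod_cast hsq
  have cs := Finset.sum_mul_sq_le_sq_mul_sq Finset.univ b (fun k => (m k : ℤ))
  have e4 : (∑ k, b k * (m k : ℤ)) ^ 2 ≤ ((d : ℤ) * e) ^ 2 := by
    refine cs.trans ?_
    rw [mul_pow, mul_comm ((d : ℤ) ^ 2)]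
    exact mul_le_mul e3 hsq' (Finset.sum_nonneg fun k _ => sq_nonneg _) (sq_nonneg _)
  have e5 : ∑ k, b k * (m k : ℤ) ≤ (d : ℤ) * e :=
    (abs_le_of_sq_le_sq' e4 (by positivity)).2
  rw [e2] at e5
  linarith

theorem dim_cm (hι : Function.Injective ι) (hd : d' + δ = d) (hsum : ∑ j, m (ι j) = d + δ)
    (hlow : ∀ j, δ ≤ m (ι j) + 1) (N : ℕ) : Dim d' (cm m ι δ) N ↔ Dim d m N := by
  have key : ∀ j, (cm m ι δ (ι j) : ℤ) * ((cm m ι δ (ι j) : ℤ) + 1) =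
      ((m (ι j) : ℤ) - δ) * ((m (ι j) : ℤ) - δ + 1) := by
    intro j
    rw [cm_ι]
    rcases Nat.lt_or_ge (m (ι j)) δ with h | h
    · have h1 := hlow j
      have h2 : (δ : ℤ) = m (ι j) + 1 := by omega
      have h3 : m (ι j) - δ = 0 := by omega
      rw [h3, h2]
      push_cast
      ring
    · push_cast [Nat.cast_sub h]
      ring
  have hchi : ((d' : ℤ) + 1) * ((d' : ℤ) + 2) -
      ∑ i, (cm m ι δ i : ℤ) * ((cm m ι δ i : ℤ) + 1) =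
      ((d : ℤ) + 1) * ((d : ℤ) + 2) - ∑ i, (m i : ℤ) * ((m i : ℤ) + 1) := by
    rw [sum_split hι, sum_split hι (fun i => (m i : ℤ) * ((m i : ℤ) + 1))]
    have h1 : ∑ i ∈ (Finset.univ.image ι)ᶜ, (cm m ι δ i : ℤ) * ((cm m ι δ i : ℤ) + 1) =
        ∑ i ∈ (Finset.univ.image ι)ᶜ, (m i : ℤ) * ((m i : ℤ) + 1) :=
      Finset.sum_congr rfl fun i hi => by rw [cm_of_notMem (Finset.mem_compl.1 hi)]
    rw [h1, key 0, key 1, key 2]
    rw [Fin.sum_univ_three] at hsum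
    have h2 : (m (ι 0) : ℤ) + m (ι 1) + m (ι 2) = d + δ := by exact_mod_cast hsum
    have h3 : (d : ℤ) = d' + δ := by rw [← hd]; push_cast; ring
    have h4 : (m (ι 2) : ℤ) = d' + 2 * δ - m (ι 0) - m (ι 1) := by linarith
    rw [h4, h3]
    ring
  unfold Dim
  rw [hchi]

theorem sq_cm (hι : Function.Injective ι) (hd : d' + δ = d) (hsum : ∑ j, m (ι j) = d + δ)
    (hlow : ∀ j, δ ≤ m (ι j) + 1) {c : ℕ} (hsq : ∑ i, m i ^ 2 + c ≤ d ^ 2) :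
    ∑ i, cm m ι δ i ^ 2 + c ≤ d' ^ 2 := by
  have key : ∀ j, (cm m ι δ (ι j) : ℤ) ^ 2 ≤ ((m (ι j) : ℤ) - δ) ^ 2 := by
    intro j
    rw [cm_ι]
    rcases Nat.lt_or_ge (m (ι j)) δ with h | h
    · have h3 : m (ι j) - δ = 0 := by omega
      rw [h3]
      simpa using sq_nonneg ((m (ι j) : ℤ) - δ)
    · push_cast [Nat.cast_sub h]
      exact le_rfl
  have h0 : (∑ i, (m i : ℤ) ^ 2) + c ≤ (d : ℤ) ^ 2 := by exact_mod_cast hsq
  have goal : (∑ i, (cm m ι δ i : ℤ) ^ 2) + c ≤ (d' : ℤ) ^ 2 := by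
    rw [sum_split hι] at h0 ⊢
    have h1 : ∑ i ∈ (Finset.univ.image ι)ᶜ, (cm m ι δ i : ℤ) ^ 2 =
        ∑ i ∈ (Finset.univ.image ι)ᶜ, (m i : ℤ) ^ 2 :=
      Finset.sum_congr rfl fun i hi => by rw [cm_of_notMem (Finset.mem_compl.1 hi)]
    rw [h1]
    have k0 := key 0
    have k1 := key 1
    have k2 := key 2
    rw [Fin.sum_univ_three] at hsum
    have h2 : (m (ι 0) : ℤ) + m (ι 1) + m (ι 2) = d + δ := by exact_mod_cast hsum
    have h3 : (d : ℤ) = d' + δ := by rw [← hd]; push_cast; ring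
    have h4 : ((m (ι 0) : ℤ) - δ) ^ 2 + ((m (ι 1) : ℤ) - δ) ^ 2 + ((m (ι 2) : ℤ) - δ) ^ 2 =
        (m (ι 0) : ℤ) ^ 2 + (m (ι 1) : ℤ) ^ 2 + (m (ι 2) : ℤ) ^ 2 - 2 * δ * (d + δ) +
          3 * (δ : ℤ) ^ 2 := by
      rw [← h2]; ring
    have h5 : (d : ℤ) ^ 2 - 2 * δ * (d + δ) + 3 * (δ : ℤ) ^ 2 = (d' : ℤ) ^ 2 := by
      rw [h3]; ring
    linarith
  exact_mod_cast goal

lemma cm_mul (hlow : ∀ j, δ ≤ m (ι j) + 1)
    (hsq : ∑ i, cm m ι δ i ^ 2 ≤ d' ^ 2) {e' : ℕ} {a' : Fin n → ℕ}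
    (h : Neg d' (cm m ι δ) e' a') (j : Fin 3) :
    (a' (ι j) : ℤ) * (cm m ι δ (ι j) : ℤ) = a' (ι j) * ((m (ι j) : ℤ) - δ) := by
  rcases Nat.lt_or_ge (m (ι j)) δ with h1 | h1
  · have h3 : cm m ι δ (ι j) = 0 := by rw [cm_ι]; omega
    rw [light hsq h h3, h3]
    simp
  · rw [cm_ι]
    push_cast [Nat.cast_sub h1]
    ring

theorem neg_cm (hι : Function.Injective ι) (hd : d' + δ = d) (hsum : ∑ j, m (ι j) = d + δ)
    (hlow : ∀ j, δ ≤ m (ι j) + 1) (hsq : ∑ i, cm m ι δ i ^ 2 ≤ d' ^ 2) {e e' : ℕ}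
    {a a' : Fin n → ℕ} (h : Neg d' (cm m ι δ) e' a') (he : e + ∑ j, a' (ι j) = 2 * e')
    (ha : ∀ j, a (ι j) + ∑ k, a' (ι k) = e' + a' (ι j))
    (ha' : ∀ l, l ∉ Finset.univ.image ι → a l = a' l) : Neg d m e a := by
  have hmul := cm_mul hlow hsq h
  obtain ⟨h1, h2, h3⟩ := h
  rw [sum_split hι] at h1 h2 h3
  beta_reduce at h1 h2 h3
  rw [hmul 0, hmul 1, hmul 2] at h3
  have s3 : ∑ i ∈ (Finset.univ.image ι)ᶜ, (a' i : ℤ) * (cm m ι δ i : ℤ) =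
      ∑ i ∈ (Finset.univ.image ι)ᶜ, (a i : ℤ) * (m i : ℤ) :=
    Finset.sum_congr rfl fun i hi => by
      rw [cm_of_notMem (Finset.mem_compl.1 hi), ha' i (Finset.mem_compl.1 hi)]
  have s2 : ∑ i ∈ (Finset.univ.image ι)ᶜ, (a' i : ℤ) = ∑ i ∈ (Finset.univ.image ι)ᶜ, (a i : ℤ) :=
    Finset.sum_congr rfl fun i hi => by rw [ha' i (Finset.mem_compl.1 hi)]
  have s1 : ∑ i ∈ (Finset.univ.image ι)ᶜ, (a' i : ℤ) ^ 2 =
      ∑ i ∈ (Finset.univ.image ι)ᶜ, (a i : ℤ) ^ 2 :=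
    Finset.sum_congr rfl fun i hi => by rw [ha' i (Finset.mem_compl.1 hi)]
  rw [s1] at h1
  rw [s2] at h2
  rw [s3] at h3
  rw [Fin.sum_univ_three] at hsum he
  have ha0 := ha 0
  have ha1 := ha 1
  have ha2 := ha 2
  rw [Fin.sum_univ_three] at ha0 ha1 ha2
  have q0 : (m (ι 2) : ℤ) = d + δ - m (ι 0) - m (ι 1) := by
    have : (m (ι 0) : ℤ) + m (ι 1) + m (ι 2) = d + δ := by exact_mod_cast hsum
    linarith
  have q1 : (d' : ℤ) = d - δ := by rw [← hd]; push_cast; ring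
  have q2 : (e : ℤ) = 2 * e' - (a' (ι 0) + a' (ι 1) + a' (ι 2)) := by
    have : (e : ℤ) + (a' (ι 0) + a' (ι 1) + a' (ι 2)) = 2 * e' := by exact_mod_cast he
    linarith
  have r0 : (a (ι 0) : ℤ) = e' - a' (ι 1) - a' (ι 2) := by
    have : (a (ι 0) : ℤ) + (a' (ι 0) + a' (ι 1) + a' (ι 2)) = e' + a' (ι 0) := by
      exact_mod_cast ha0
    linarith
  have r1 : (a (ι 1) : ℤ) = e' - a' (ι 0) - a' (ι 2) := by
    have : (a (ι 1) : ℤ) + (a' (ι 0) + a' (ι 1) + a' (ι 2)) = e' + a' (ι 1) := by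
      exact_mod_cast ha1
    linarith
  have r2 : (a (ι 2) : ℤ) = e' - a' (ι 0) - a' (ι 1) := by
    have : (a (ι 2) : ℤ) + (a' (ι 0) + a' (ι 1) + a' (ι 2)) = e' + a' (ι 2) := by
      exact_mod_cast ha2
    linarith
  refine ⟨?_, ?_, ?_⟩
  · rw [sum_split hι]
    beta_reduce
    rw [r0, r1, r2, q2]
    linear_combination h1
  · rw [sum_split hι]
    beta_reduce
    rw [r0, r1, r2, q2]
    linear_combination h2
  · rw [sum_split hι]
    beta_reduce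
    rw [r0, r1, r2, q2]
    rw [q1, q0] at h3
    rw [q0]
    linarith [h3]

theorem not_line (hι : Function.Injective ι) (hd : d' + δ = d) (hsum : ∑ j, m (ι j) = d + δ)
    (hlow : ∀ j, δ ≤ m (ι j) + 1) (hsq : ∑ i, cm m ι δ i ^ 2 ≤ d' ^ 2) {a' : Fin n → ℕ}
    (j0 : Fin 3) (h0 : a' (ι j0) = 0) (h1 : ∀ j, j ≠ j0 → a' (ι j) = 1)
    (h2 : ∀ l, l ∉ Finset.univ.image ι → a' l = 0) : ¬ Neg d' (cm m ι δ) 1 a' := by
  intro h
  have hmul := cm_mul hlow hsq h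
  obtain ⟨-, -, h3⟩ := h
  rw [sum_split hι] at h3
  beta_reduce at h3
  rw [hmul 0, hmul 1, hmul 2] at h3
  have s3 : ∑ i ∈ (Finset.univ.image ι)ᶜ, (a' i : ℤ) * (cm m ι δ i : ℤ) = 0 :=
    Finset.sum_eq_zero fun i hi => by rw [h2 i (Finset.mem_compl.1 hi)]; simp
  rw [s3] at h3
  rw [Fin.sum_univ_three] at hsum
  have q0 : (m (ι 0) : ℤ) + m (ι 1) + m (ι 2) = d + δ := by exact_mod_cast hsum
  have q1 : (d' : ℤ) = d - δ := by rw [← hd]; push_cast; ring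
  fin_cases j0
  · have e0 : a' (ι 0) = 0 := h0
    have e1 := h1 1 (by decide)
    have e2 := h1 2 (by decide)
    rw [e0, e1, e2] at h3
    push_cast at h3
    omega
  · have e0 : a' (ι 1) = 0 := h0
    have e1 := h1 0 (by decide)
    have e2 := h1 2 (by decide)
    rw [e0, e1, e2] at h3
    push_cast at h3
    omega
  · have e0 : a' (ι 2) = 0 := h0
    have e1 := h1 0 (by decide)
    have e2 := h1 1 (by decide)
    rw [e0, e1, e2] at h3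
    push_cast at h3
    omega

end Pool.MP_70e04f_ag.Cre
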