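import Pool.Agent.Lib_MP_70e04f_cre.RevIrr
import Pool.Agent.Lib_MP_70e04f_cre.Num

/-!
# The second alternative after a quadratic transformation (piece CRALT)

PAPER PROOF. (1) No variable `X j0` divides `G`: otherwise `G = C c * X j0`, `c ≠ 0`
(`G` is irreducible), `e' = 1` (`IsHomogeneous.inj_right`), and by `mem_mi_single_iff`
(`G.support = {single j0 1}`) `G ∈ mi (Pi.single j 1) ^ k` iff `k ≤ 1` for `j ≠ j0` and iff `k = 0`
for `j = j0`; so `a' (ι j) = 1` for `j ≠ j0` and `a' (ι j0) = 0`; for `l` not in the image of `ι`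
the value of `G` at `q' l = sg (q l)` is not zero, so `a' l = 0`. This contradicts `not_line`.

(2) Let `ν j` be the largest exponent of `X j` in `G` (`MvPolynomial.degreeOf j G`, or
`Finset.sup`). By `mem_mi_single_iff` `ν j + a' (ι j) = e'` (`G ≠ 0`). A monomial of `G` has degree
`e'` and exponents `≤ ν`, so `e' ≤ ν 0 + ν 1 + ν 2`; let `e = ν 0 + ν 1 + ν 2 - e'`, so
`e + ∑ a' (ι j) = 2 e'`. Let `F = rev ν G`: irreducible (`rev_irreducible`), homogeneous of degree
`e` (`rev_isHomogeneous`). As `X j` does not divide `G`, some monomial `s` of `G` has `s j = 0`, and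
`ν - s` is a monomial of `F` (`coeff_rev`) with exponent `ν j`; all exponents of `F` are `≤ ν`
(`support_rev_le`). So `ν j ≤ e`, and by `mem_mi_single_iff` `F ∈ mi (Pi.single j 1) ^ k` iff
`ν j + k ≤ e`: put `a (ι j) = e - ν j`. Then
`a (ι j) + ∑ a' (ι k) = (∑ ν - e' - ν j) + (3 e' - ∑ ν) = e' + a' (ι j)`.

(3) For `l` not in the image, `a l = a' l`: `G ∈ mi (sg (q l)) ^ k → F ∈ mi (q l) ^ k` (`rev_mem`),
`F ∈ mi (q l) ^ k → rev ν F = G ∈ mi (sg (q l)) ^ k` (`rev_mem'` for `F`, `rev_rev`).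

(4) `neg_cm`.
-/

namespace Pool.MP_70e04f_ag.Cre

open MvPolynomial

/-- The multiplicity at a coordinate point and the largest exponent. -/
theorem alt_mult {F : R3} {e : ℕ} (hF : F.IsHomogeneous e) {j : Fin 3} {a : ℕ}
    (h1 : F ∈ mi (Pi.single j 1) ^ a) (h2 : F ∉ mi (Pi.single j 1) ^ (a + 1)) :
    (∀ s ∈ F.support, s j + a ≤ e) ∧ ∃ s ∈ F.support, s j + a = e := by
  have h3 := (mem_mi_single_iff hF j a).1 h1
  refine ⟨h3, ?_⟩
  by_contra h
  push Not at h
  refine h2 ((mem_mi_single_iff hF j (a + 1)).2 fun s hs => ?_)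
  have := h3 s hs
  have := h s hs
  omega

theorem alt_dvd {F : R3} {j : Fin 3} (h : ∀ s ∈ F.support, s j ≠ 0) : (X j : R3) ∣ F := by
  rw [MvPolynomial.X_dvd_iff_modMonomial_eq_zero]
  ext s
  by_cases hs : Finsupp.single j 1 ≤ s
  · rw [MvPolynomial.coeff_modMonomial_of_le _ hs, MvPolynomial.coeff_zero]
  · rw [MvPolynomial.coeff_modMonomial_of_not_le _ hs, MvPolynomial.coeff_zero]
    by_contra hc
    refine hs ?_
    rw [Finsupp.single_le_iff]
    exact Nat.one_le_iff_ne_zero.2 (h s (MvPolynomial.mem_support_iff.2 hc))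

theorem alt_degree {F : R3} {e : ℕ} (hF : F.IsHomogeneous e) {s : Fin 3 →₀ ℕ}
    (hs : s ∈ F.support) : s 0 + s 1 + s 2 = e := by
  have h := hF (MvPolynomial.mem_support_iff.1 hs)
  rw [Finsupp.weight_apply, Finsupp.sum_fintype _ _ (by simp)] at h
  simpa [Fin.sum_univ_three] using h

theorem alt_not_dvd {n d d' δ : ℕ} {m : Fin n → ℕ} {ι : Fin 3 → Fin n}
    (hι : Function.Injective ι) (hd : d' + δ = d) (hsum : ∑ j, m (ι j) = d + δ)
    (hlow : ∀ j, δ ≤ m (ι j) + 1) (hsq : ∑ i, cm m ι δ i ^ 2 ≤ d' ^ 2)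
    {q q' : Fin n → Fin 3 → ℂ}
    (hq' : ∀ j, q' (ι j) = Pi.single j 1)
    (hx : ∀ l, l ∉ Finset.univ.image ι → (∀ c, q l c ≠ 0) ∧ q' l = sg (q l))
    {G : R3} {e' : ℕ} {a' : Fin n → ℕ} (hG : Irreducible G) (he : G.IsHomogeneous e')
    (ha : ∀ i, G ∈ mi (q' i) ^ a' i ∧ G ∉ mi (q' i) ^ (a' i + 1))
    (hneg : Neg d' (cm m ι δ) e' a') (j0 : Fin 3) : ¬ (X j0 : R3) ∣ G := by
  rintro ⟨K, hK⟩
  have hXu : ¬ IsUnit (X j0 : R3) := (MvPolynomial.X_prime (R := ℂ) (i := j0)).not_isUnit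
  have hKu : IsUnit K := (hG.isUnit_or_isUnit hK).resolve_left hXu
  rw [MvPolynomial.isUnit_iff_eq_C_of_isReduced] at hKu
  obtain ⟨c, hc, rfl⟩ := hKu
  have hc0 : c ≠ 0 := hc.ne_zero
  have hGm : G = monomial (Finsupp.single j0 1) c := by
    rw [hK, mul_comm, MvPolynomial.C_mul_X_eq_monomial]
  have hsupp : Finsupp.single j0 1 ∈ G.support := by
    rw [MvPolynomial.mem_support_iff, hGm, MvPolynomial.coeff_monomial, if_pos rfl]
    exact hc0
  have honly : ∀ s ∈ G.support, s = Finsupp.single j0 1 := by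
    intro s hs
    rw [MvPolynomial.mem_support_iff, hGm, MvPolynomial.coeff_monomial] at hs
    by_contra h
    exact hs (if_neg (fun h' => h h'.symm))
  have he1 : e' = 1 := by
    have := alt_degree he hsupp
    rw [← this]
    fin_cases j0 <;> simp
  subst he1
  have hmul : ∀ j, (Finsupp.single j0 1 : Fin 3 →₀ ℕ) j + a' (ι j) = 1 := by
    intro j
    obtain ⟨h1, h2⟩ := ha (ι j)
    rw [hq' j] at h1 h2
    obtain ⟨-, s, hs, h3⟩ := alt_mult he h1 h2
    rw [honly s hs] at h3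
    exact h3
  refine not_line hι hd hsum hlow hsq j0 (a' := a') ?_ ?_ ?_ hneg
  · have := hmul j0
    rw [Finsupp.single_eq_same] at this
    omega
  · intro j hj
    have := hmul j
    rw [Finsupp.single_eq_of_ne hj] at this
    omega
  · intro l hl
    obtain ⟨h1, h2⟩ := hx l hl
    by_contra h3
    have h4 : G ∈ mi (q' l) := by
      have := Ideal.pow_le_pow_right (I := mi (q' l)) (Nat.one_le_iff_ne_zero.2 h3) (ha l).1
      rwa [pow_one] at this
    rw [RingHom.mem_ker, h2, hK, map_mul, MvPolynomial.eval_X, MvPolynomial.eval_C] at h4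
    rcases mul_eq_zero.1 h4 with h5 | h5
    · fin_cases j0
      · exact mul_ne_zero (h1 1) (h1 2) h5
      · exact mul_ne_zero (h1 0) (h1 2) h5
      · exact mul_ne_zero (h1 0) (h1 1) h5
    · exact hc0 h5

theorem alt_cremona {n d d' δ : ℕ} {m : Fin n → ℕ} {ι : Fin 3 → Fin n}
    (hι : Function.Injective ι) (hd : d' + δ = d) (hsum : ∑ j, m (ι j) = d + δ)
    (hlow : ∀ j, δ ≤ m (ι j) + 1) (hsq : ∑ i, cm m ι δ i ^ 2 ≤ d' ^ 2)
    {q q' : Fin n → Fin 3 → ℂ}
    (hq : ∀ j, q (ι j) = Pi.single j 1) (hq' : ∀ j, q' (ι j) = Pi.single j 1)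
    (hx : ∀ l, l ∉ Finset.univ.image ι → (∀ c, q l c ≠ 0) ∧ q' l = sg (q l))
    {G : R3} {e' : ℕ} {a' : Fin n → ℕ} (hG : Irreducible G) (he : G.IsHomogeneous e')
    (ha : ∀ i, G ∈ mi (q' i) ^ a' i ∧ G ∉ mi (q' i) ^ (a' i + 1))
    (hneg : Neg d' (cm m ι δ) e' a') :
    ∃ F : R3, ∃ e : ℕ, ∃ a : Fin n → ℕ, Irreducible F ∧ F.IsHomogeneous e ∧
      (∀ i, F ∈ mi (q i) ^ a i ∧ F ∉ mi (q i) ^ (a i + 1)) ∧ Neg d m e a := by
  have hX := fun j => alt_not_dvd hι hd hsum hlow hsq hq' hx hG he ha hneg j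
  have hG0 : G ≠ 0 := hG.ne_zero
  have hmul : ∀ j, (∀ s ∈ G.support, s j + a' (ι j) ≤ e') ∧
      ∃ s ∈ G.support, s j + a' (ι j) = e' := by
    intro j
    obtain ⟨h1, h2⟩ := ha (ι j)
    rw [hq' j] at h1 h2
    exact alt_mult he h1 h2
  obtain ⟨ν, hνdef⟩ : ∃ ν : Fin 3 →₀ ℕ, ∀ j, ν j + a' (ι j) = e' := by
    refine ⟨Finsupp.equivFunOnFinite.symm fun j => e' - a' (ι j), fun j => ?_⟩
    obtain ⟨s, hs, h⟩ := (hmul j).2
    simp only [Finsupp.equivFunOnFinite_symm_apply_apply]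
    omega
  have hν : ∀ s ∈ G.support, s ≤ ν := by
    intro s hs j
    have := (hmul j).1 s hs
    have := hνdef j
    omega
  have hmax : ∀ j, ∃ s ∈ G.support, s j = ν j := by
    intro j
    obtain ⟨s, hs, h⟩ := (hmul j).2
    have := hνdef j
    exact ⟨s, hs, by omega⟩
  have hzero : ∀ j, ∃ s ∈ G.support, s j = 0 := by
    intro j
    by_contra h
    push Not at h
    exact hX j (alt_dvd h)
  obtain ⟨e, hee⟩ : ∃ e, e' + e = ν 0 + ν 1 + ν 2 := by
    obtain ⟨s, hs, -⟩ := hzero 0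
    have h1 := alt_degree he hs
    have h2 := hν s hs
    have := h2 0
    have := h2 1
    have := h2 2
    exact ⟨ν 0 + ν 1 + ν 2 - e', by omega⟩
  obtain ⟨hFirr, -⟩ := rev_irreducible hee hG he hν hmax hX
  have hFhom : (rev ν G).IsHomogeneous e := rev_isHomogeneous hee he hν
  have hFν : ∀ s ∈ (rev ν G).support, s ≤ ν := support_rev_le
  have hFmax : ∀ j, ∃ s ∈ (rev ν G).support, s j = ν j := by
    intro j
    obtain ⟨s, hs, h⟩ := hzero j
    refine ⟨ν - s, ?_, ?_⟩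
    · rw [MvPolynomial.mem_support_iff, coeff_rev hν _ tsub_le_self,
        tsub_tsub_cancel_of_le (hν s hs)]
      exact MvPolynomial.mem_support_iff.1 hs
    · rw [Finsupp.tsub_apply, h, Nat.sub_zero]
  have hνe : ∀ j, ν j ≤ e := by
    intro j
    obtain ⟨s, hs, h⟩ := hFmax j
    have := alt_degree hFhom hs
    rw [← h]
    fin_cases j
    · show s 0 ≤ e
      omega
    · show s 1 ≤ e
      omega
    · show s 2 ≤ e
      omega
  have hsumν : e + ∑ j, a' (ι j) = 2 * e' := by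
    rw [Fin.sum_univ_three]
    have := hνdef 0
    have := hνdef 1
    have := hνdef 2
    omega
  refine ⟨rev ν G, e, fun i => if i ∈ Finset.univ.image ι then e + a' i - e' else a' i,
    hFirr, hFhom, ?_, ?_⟩
  · intro i
    by_cases hi : i ∈ Finset.univ.image ι
    · obtain ⟨j, -, rfl⟩ := Finset.mem_image.1 hi
      simp only [if_pos hi]
      rw [hq j]
      have h1 := hνdef j
      have h2 := hνe j
      constructor
      · rw [mem_mi_single_iff hFhom]
        intro s hs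
        have := hFν s hs j
        omega
      · rw [mem_mi_single_iff hFhom]
        intro h
        obtain ⟨s, hs, h3⟩ := hFmax j
        have := h s hs
        omega
    · simp only [if_neg hi]
      obtain ⟨h1, h2⟩ := hx i hi
      obtain ⟨h3, h4⟩ := ha i
      rw [h2] at h3 h4
      refine ⟨rev_mem he hν h1 h3, fun h => h4 ?_⟩
      have := rev_mem' hFhom hFν h1 h
      rwa [rev_rev hν] at this
  · refine neg_cm hι hd hsum hlow hsq hneg hsumν ?_ ?_
    · intro j
      have hi : ι j ∈ Finset.univ.image ι := Finset.mem_image_of_mem ι (Finset.mem_univ j)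
      simp only [if_pos hi]
      have h1 := hνdef j
      have h2 := hνe j
      omega
    · intro l hl
      simp only [if_neg hl]

end Pool.MP_70e04f_ag.Cre
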