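import Pool.Agent.Lib_MP_70e04f_cre.Rev

/-!
# The dimension of a system after a quadratic transformation (piece CRDIM)

PAPER PROOF. Let `ν` be the finitely supported function with `ν j = d - m (ι j)`
(`Finsupp.equivFunOnFinite.symm`); `ν 0 + ν 1 + ν 2 = 3 d - (d + δ) = d + d'`.
(1) `F ∈ W d m q` is homogeneous of degree `d`, and by `mem_mi_single_iff` the conditions at the
points `ι j` say that all exponents of `F` are `≤ ν`. (2) `G ∈ W d' (cm m ι δ) q'` is homogeneous of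
degree `d'` and the conditions at the points `ι j` say `s j + (m (ι j) - δ) ≤ d'` for all
`s ∈ G.support`: if `m (ι j) ≥ δ` this is `s j ≤ ν j`; if `m (ι j) = δ - 1` it is `s j ≤ d'`, which
is always true (as `s j ≤ s 0 + s 1 + s 2 = d'`), and `ν j = d' + 1`; so in all cases it is
equivalent to `s j ≤ ν j`. (3) So `rev ν` maps the one space to the other and back, with inverse
`rev ν` (`rev_rev`, `rev_isHomogeneous`, `support_rev_le`; at the other points `l` use `rev_mem'`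
from `q l` to `sg (q l)` and `rev_mem` back). Equal dimensions: `LinearEquiv.finrank_eq`, or two
inequalities from injective linear maps.
-/

namespace Pool.MP_70e04f_ag.Cre

open MvPolynomial

theorem CRDIM_le {d : ℕ} {F : R3} (hF : F.IsHomogeneous d) {s : Fin 3 →₀ ℕ}
    (hs : s ∈ F.support) (j : Fin 3) : s j ≤ d := by
  have h : s.degree = d := by
    rw [Finsupp.degree_eq_weight_one]
    exact hF (MvPolynomial.mem_support_iff.1 hs)
  have h2 := Finsupp.le_degree j s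
  omega

theorem CRDIM_mem {n d : ℕ} {m : Fin n → ℕ} {q : Fin n → Fin 3 → ℂ} {F : R3} :
    F ∈ W d m q ↔ F.IsHomogeneous d ∧ ∀ i, F ∈ mi (q i) ^ m i := by
  simp [W, mem_homogeneousSubmodule]

theorem CRDIM_mem1 {n d : ℕ} {m : Fin n → ℕ} {ι : Fin 3 → Fin n}
    (hup : ∀ j, m (ι j) ≤ d) {q : Fin n → Fin 3 → ℂ}
    (hq : ∀ j, q (ι j) = Pi.single j 1) {ν : Fin 3 →₀ ℕ} (hν : ∀ j, ν j = d - m (ι j)) {F : R3} :
    F ∈ W d m q ↔ F.IsHomogeneous d ∧ (∀ s ∈ F.support, s ≤ ν) ∧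
      ∀ l, l ∉ Finset.univ.image ι → F ∈ mi (q l) ^ m l := by
  rw [CRDIM_mem]
  constructor
  · rintro ⟨h1, h2⟩
    refine ⟨h1, fun s hs => Finsupp.le_def.2 fun j => ?_, fun l _ => h2 l⟩
    have h3 := h2 (ι j)
    rw [hq j, mem_mi_single_iff h1] at h3
    have := h3 s hs
    rw [hν j]
    omega
  · rintro ⟨h1, h2, h3⟩
    refine ⟨h1, fun i => ?_⟩
    by_cases hi : i ∈ Finset.univ.image ι
    · obtain ⟨j, -, rfl⟩ := Finset.mem_image.1 hi
      rw [hq j, mem_mi_single_iff h1]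
      intro s hs
      have h4 := Finsupp.le_def.1 (h2 s hs) j
      rw [hν j] at h4
      have := hup j
      omega
    · exact h3 i hi

theorem CRDIM_mem2 {n d d' δ : ℕ} {m : Fin n → ℕ} {ι : Fin 3 → Fin n} (hd : d' + δ = d)
    (hlow : ∀ j, δ ≤ m (ι j) + 1) (hup : ∀ j, m (ι j) ≤ d) {q : Fin n → Fin 3 → ℂ}
    (hq : ∀ j, q (ι j) = Pi.single j 1) {ν : Fin 3 →₀ ℕ} (hν : ∀ j, ν j = d - m (ι j)) {F : R3} :
    F ∈ W d' (cm m ι δ) q ↔ F.IsHomogeneous d' ∧ (∀ s ∈ F.support, s ≤ ν) ∧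
      ∀ l, l ∉ Finset.univ.image ι → F ∈ mi (q l) ^ m l := by
  rw [CRDIM_mem]
  constructor
  · rintro ⟨h1, h2⟩
    refine ⟨h1, fun s hs => Finsupp.le_def.2 fun j => ?_, fun l hl => ?_⟩
    · have h3 := h2 (ι j)
      rw [hq j, mem_mi_single_iff h1] at h3
      have h4 := h3 s hs
      have h5 : cm m ι δ (ι j) = m (ι j) - δ := by
        simp [cm]
      rw [h5] at h4
      have h6 := CRDIM_le h1 hs j
      have := hlow j
      have := hup j
      rw [hν j]
      omega
    · have h3 := h2 l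
      have h5 : cm m ι δ l = m l := by
        simp only [cm, if_neg hl]
      rwa [h5] at h3
  · rintro ⟨h1, h2, h3⟩
    refine ⟨h1, fun i => ?_⟩
    by_cases hi : i ∈ Finset.univ.image ι
    · have h5 : cm m ι δ i = m i - δ := by
        simp only [cm, if_pos hi]
      rw [h5]
      obtain ⟨j, -, rfl⟩ := Finset.mem_image.1 hi
      rw [hq j, mem_mi_single_iff h1]
      intro s hs
      have h4 := Finsupp.le_def.1 (h2 s hs) j
      rw [hν j] at h4
      have h6 := CRDIM_le h1 hs j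
      have := hup j
      have := hlow j
      omega
    · have h5 : cm m ι δ i = m i := by
        simp only [cm, if_neg hi]
      rw [h5]
      exact h3 i hi

theorem finrank_cremona {n d d' δ : ℕ} {m : Fin n → ℕ} {ι : Fin 3 → Fin n}
    (hι : Function.Injective ι) (hd : d' + δ = d) (hsum : ∑ j, m (ι j) = d + δ)
    (hlow : ∀ j, δ ≤ m (ι j) + 1) (hup : ∀ j, m (ι j) ≤ d) {q q' : Fin n → Fin 3 → ℂ}
    (hq : ∀ j, q (ι j) = Pi.single j 1) (hq' : ∀ j, q' (ι j) = Pi.single j 1)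
    (hx : ∀ l, l ∉ Finset.univ.image ι → (∀ c, q l c ≠ 0) ∧ q' l = sg (q l)) :
    Module.finrank ℂ ↥(W d' (cm m ι δ) q') = Module.finrank ℂ ↥(W d m q) := by
  classical
  set ν : Fin 3 →₀ ℕ := Finsupp.equivFunOnFinite.symm (fun j => d - m (ι j)) with hνdef
  have hν : ∀ j, ν j = d - m (ι j) := fun j => rfl
  have hsum' : d + d' = ν 0 + ν 1 + ν 2 := by
    rw [Fin.sum_univ_three] at hsum
    rw [hν, hν, hν]
    have := hup 0
    have := hup 1
    have := hup 2
    omega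
  have h12 : ∀ F ∈ W d' (cm m ι δ) q', rev ν F ∈ W d m q := by
    intro F hF
    rw [CRDIM_mem2 hd hlow hup hq' hν] at hF
    rw [CRDIM_mem1 hup hq hν]
    obtain ⟨h1, h2, h3⟩ := hF
    refine ⟨rev_isHomogeneous (by omega) h1 h2, support_rev_le, fun l hl => ?_⟩
    refine rev_mem h1 h2 (hx l hl).1 ?_
    rw [← (hx l hl).2]
    exact h3 l hl
  have h21 : ∀ F ∈ W d m q, rev ν F ∈ W d' (cm m ι δ) q' := by
    intro F hF
    rw [CRDIM_mem1 hup hq hν] at hF
    rw [CRDIM_mem2 hd hlow hup hq' hν]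
    obtain ⟨h1, h2, h3⟩ := hF
    refine ⟨rev_isHomogeneous (by omega) h1 h2, support_rev_le, fun l hl => ?_⟩
    rw [(hx l hl).2]
    exact rev_mem' h1 h2 (hx l hl).1 (h3 l hl)
  refine LinearEquiv.finrank_eq (LinearEquiv.ofLinearMap ((rev ν).restrict h12)
    ((rev ν).restrict h21) ?_ ?_)
  · refine LinearMap.ext fun F => Subtype.ext ?_
    have hF := (CRDIM_mem1 hup hq hν).1 F.2
    exact rev_rev hF.2.1
  · refine LinearMap.ext fun F => Subtype.ext ?_
    have hF := (CRDIM_mem2 hd hlow hup hq' hν).1 F.2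
    exact rev_rev hF.2.1

end Pool.MP_70e04f_ag.Cre
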