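import Pool.Agent.Lib_MP_70e04f_cre.HomS
import Pool.Agent.Lib_MP_70e04f_cre.Lin
import Pool.Agent.Lib_MP_70e04f_cre.RevDim
import Pool.Agent.Lib_MP_70e04f_cre.RevAlt

/-!
# The quadratic transformation with three given fundamental points (definitions and assembly)
-/

namespace Pool.MP_70e04f_ag.Cre

open MvPolynomial

/-- The matrix whose columns are homogeneous coordinates of three points. -/
def mat {n : ℕ} (ι : Fin 3 → Fin n) (p : Fin n → Fin 2 → ℂ) : Matrix (Fin 3) (Fin 3) ℂ :=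
  Matrix.of fun c j => hat (p (ι j)) c

/-- Coordinates of the point `l` with respect to the three points (up to a scalar). -/
noncomputable def bar {n : ℕ} (ι : Fin 3 → Fin n) (p : Fin n → Fin 2 → ℂ) (l : Fin n) :
    Fin 3 → ℂ :=
  (mat ι p).adjugate.mulVec (hat (p l))

/-- Homogeneous coordinates of the transformed point. -/
noncomputable def img {n : ℕ} (ι : Fin 3 → Fin n) (p : Fin n → Fin 2 → ℂ) (l : Fin n) :
    Fin 3 → ℂ :=
  (mat ι p).mulVec (sg (bar ι p l))

/-- The transformed configuration. -/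
noncomputable def crm {n : ℕ} (ι : Fin 3 → Fin n) (p : Fin n → Fin 2 → ℂ) : Fin n → Fin 2 → ℂ :=
  fun l => if l ∈ Finset.univ.image ι then p l else
    ![img ι p l 0 / img ι p l 2, img ι p l 1 / img ι p l 2]

/-- The configurations for which the transformation is defined. -/
def Good {n : ℕ} (ι : Fin 3 → Fin n) (p : Fin n → Fin 2 → ℂ) : Prop :=
  (mat ι p).det ≠ 0 ∧ ∀ l, l ∉ Finset.univ.image ι → (∀ c, bar ι p l c ≠ 0) ∧ img ι p l 2 ≠ 0

/-- The standard quadratic transformation. -/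
theorem HS.cremona {n d d' δ : ℕ} {m : Fin n → ℕ} {ι : Fin 3 → Fin n}
    (hι : Function.Injective ι) (hd : d' + δ = d) (hsum : ∑ j, m (ι j) = d + δ)
    (hlow : ∀ j, δ ≤ m (ι j) + 1) (hup : ∀ j, m (ι j) ≤ d)
    (hsq : ∑ i, cm m ι δ i ^ 2 ≤ d' ^ 2)
    {q q' : Fin n → Fin 3 → ℂ}
    (hq : ∀ j, q (ι j) = Pi.single j 1) (hq' : ∀ j, q' (ι j) = Pi.single j 1)
    (hx : ∀ l, l ∉ Finset.univ.image ι → (∀ c, q l c ≠ 0) ∧ q' l = sg (q l))
    (h : HS d' (cm m ι δ) q') : HS d m q := by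
  rcases h with h | ⟨G, e', a', hG, he, ha, hneg⟩
  · left
    rw [finrank_cremona hι hd hsum hlow hup hq hq' hx] at h
    exact (dim_cm hι hd hsum hlow _).1 h
  · right
    exact alt_cremona hι hd hsum hlow hsq hq hq' hx hG he ha hneg

end Pool.MP_70e04f_ag.Cre
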