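import Pool.Agent.Lib_MP_70e04f_cre.Conf

/-!
# The quadratic transformation with three given fundamental points (piece CRCONF)

PAPER PROOF. Let `A = mat ι p`, `D = A.det ≠ 0`, `p' = crm ι p`. Start from `S d' (cm m ι δ) p'`.
By `HS_of_S` `HS d' (cm m ι δ) (fun i => hat (p' i))`; apply `HS.mat` with `A.adjugate` (its
determinant is `D ^ 2`, `Matrix.det_adjugate`). For `i = ι j`: `hat (p' (ι j)) = hat (p (ι j))` is
the column `j` of `A`, i.e. `A.mulVec (Pi.single j 1)`, so
`A.adjugate.mulVec (hat (p' (ι j))) = D • Pi.single j 1` (`Matrix.adjugate_mul`). For `l` not in the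
image of `ι`: `hat (p' l) = (img ι p l 2)⁻¹ • img ι p l`, so
`A.adjugate.mulVec (hat (p' l)) = (D / img ι p l 2) • sg (bar ι p l)`. `HS.smul` with the inverses of
the scalars gives `HS d' (cm m ι δ) q'` with `q' (ι j) = Pi.single j 1`, `q' l = sg (bar ι p l)`.
Now `HS.cremona` with `q (ι j) = Pi.single j 1`, `q l = bar ι p l`
(`hlow`: `d + δ = m (ι j) + (sum of the other two) ≤ m (ι j) + d + 1`; `hup`: from `hsq`;
`∑ cm ^ 2 ≤ d' ^ 2` by `sq_cm` with `c = 0`). Then `HS.mat` with `A`: `A.mulVec (Pi.single j 1) =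
hat (p (ι j))`, `A.mulVec (bar ι p l) = D • hat (p l)` (`Matrix.mul_adjugate`), `HS.smul` with `D⁻¹`
at the `l` not in the image (and `1` at the `ι j`), and `S_of_HS`.
(The families of points are given by `if ... then ... else ...`: choose for `i` in the image of
`ι` the index `j` with `ι j = i`, e.g. with `Function.extend ι` or `Function.invFun`; or state
that `q` satisfies the properties and use `funext` for the comparison.)
-/

namespace Pool.MP_70e04f_ag.Cre

open MvPolynomial

lemma confS_col {n : ℕ} (ι : Fin 3 → Fin n) (p : Fin n → Fin 2 → ℂ) (j : Fin 3) :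
    bar ι p (ι j) = (mat ι p).det • Pi.single j 1 := by
  have h1 : (mat ι p).mulVec (Pi.single j 1) = hat (p (ι j)) := by
    rw [Matrix.mulVec_single_one]
    rfl
  unfold bar
  rw [← h1, Matrix.mulVec_mulVec, Matrix.adjugate_mul, Matrix.smul_mulVec, Matrix.one_mulVec]

theorem S.cremona {n d d' δ : ℕ} {m : Fin n → ℕ} {ι : Fin 3 → Fin n}
    (hι : Function.Injective ι) (hd : d' + δ = d) (hsum : ∑ j, m (ι j) = d + δ)
    (hpair : ∀ j k, j ≠ k → m (ι j) + m (ι k) ≤ d + 1) (hsq : ∑ i, m i ^ 2 ≤ d ^ 2)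
    {p : Fin n → Fin 2 → ℂ} (hp : Good ι p) (h : S d' (cm m ι δ) (crm ι p)) : S d m p := by
  classical
  obtain ⟨hD, hl⟩ := hp
  have hlow : ∀ j, δ ≤ m (ι j) + 1 := by
    intro j
    rw [Fin.sum_univ_three] at hsum
    have h01 := hpair 0 1 (by decide)
    have h02 := hpair 0 2 (by decide)
    have h12 := hpair 1 2 (by decide)
    fin_cases j
    · change δ ≤ m (ι 0) + 1; omega
    · change δ ≤ m (ι 1) + 1; omega
    · change δ ≤ m (ι 2) + 1; omega
  have hup : ∀ j, m (ι j) ≤ d := by
    intro j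
    have h1 : m (ι j) ^ 2 ≤ ∑ i, m i ^ 2 :=
      Finset.single_le_sum (f := fun i => m i ^ 2) (fun _ _ => Nat.zero_le _)
        (Finset.mem_univ (ι j))
    exact (Nat.pow_le_pow_iff_left two_ne_zero).1 (h1.trans hsq)
  have hsq' : ∑ i, cm m ι δ i ^ 2 ≤ d' ^ 2 := by
    have h1 := sq_cm hι hd hsum hlow (c := 0) (by rw [add_zero]; exact hsq)
    rw [add_zero] at h1
    exact h1
  have h2 := (HS_of_S h).mat (mat ι p).adjugate (by
    rw [Matrix.det_adjugate]
    exact pow_ne_zero _ hD)
  let c1 : Fin n → ℂ := fun i => if i ∈ Finset.univ.image ι then (mat ι p).det⁻¹ else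
    img ι p i 2 / (mat ι p).det
  have hc1 : ∀ i, c1 i ≠ 0 := by
    intro i
    change (if i ∈ Finset.univ.image ι then (mat ι p).det⁻¹ else
      img ι p i 2 / (mat ι p).det) ≠ 0
    by_cases hi : i ∈ Finset.univ.image ι
    · rw [if_pos hi]
      exact inv_ne_zero hD
    · rw [if_neg hi]
      exact div_ne_zero (hl i hi).2 hD
  have h3 := h2.smul c1 hc1
  let c2 : Fin n → ℂ := fun i => if i ∈ Finset.univ.image ι then (mat ι p).det⁻¹ else 1
  have hc2 : ∀ i, c2 i ≠ 0 := by
    intro i
    change (if i ∈ Finset.univ.image ι then (mat ι p).det⁻¹ else (1 : ℂ)) ≠ 0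
    by_cases hi : i ∈ Finset.univ.image ι
    · rw [if_pos hi]
      exact inv_ne_zero hD
    · rw [if_neg hi]
      exact one_ne_zero
  have hmem : ∀ j, ι j ∈ Finset.univ.image ι := fun j =>
    Finset.mem_image_of_mem ι (Finset.mem_univ j)
  have h4 := HS.cremona hι hd hsum hlow hup hsq' (q := fun i => c2 i • bar ι p i)
    (q' := fun i => c1 i • (mat ι p).adjugate.mulVec (hat (crm ι p i)))
    (by
      intro j
      change (if ι j ∈ Finset.univ.image ι then (mat ι p).det⁻¹ else (1 : ℂ)) • bar ι p (ι j) = _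
      rw [if_pos (hmem j), confS_col, smul_smul, inv_mul_cancel₀ hD, one_smul])
    (by
      intro j
      change (if ι j ∈ Finset.univ.image ι then (mat ι p).det⁻¹ else
        img ι p (ι j) 2 / (mat ι p).det) • (mat ι p).adjugate.mulVec (hat (crm ι p (ι j))) = _
      have e1 : crm ι p (ι j) = p (ι j) := by
        unfold crm
        rw [if_pos (hmem j)]
      rw [if_pos (hmem j), e1]
      have e2 := confS_col ι p j
      unfold bar at e2
      rw [e2, smul_smul, inv_mul_cancel₀ hD, one_smul])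
    (by
      intro l hl'
      obtain ⟨k1, k2⟩ := hl l hl'
      have e0 : c2 l • bar ι p l = bar ι p l := by
        change (if l ∈ Finset.univ.image ι then (mat ι p).det⁻¹ else (1 : ℂ)) • bar ι p l = _
        rw [if_neg hl', one_smul]
      have e1 : hat (crm ι p l) = (img ι p l 2)⁻¹ • img ι p l := by
        unfold crm
        rw [if_neg hl']
        funext c
        fin_cases c
        · change img ι p l 0 / img ι p l 2 = (img ι p l 2)⁻¹ * img ι p l 0
          rw [div_eq_inv_mul]
        · change img ι p l 1 / img ι p l 2 = (img ι p l 2)⁻¹ * img ι p l 1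
          rw [div_eq_inv_mul]
        · change (1 : ℂ) = (img ι p l 2)⁻¹ * img ι p l 2
          rw [inv_mul_cancel₀ k2]
      refine ⟨fun c => ?_, ?_⟩
      · change (c2 l • bar ι p l) c ≠ 0
        rw [e0]
        exact k1 c
      · change c1 l • (mat ι p).adjugate.mulVec (hat (crm ι p l)) = sg (c2 l • bar ι p l)
        rw [e0, e1, Matrix.mulVec_smul]
        have e3 : (mat ι p).adjugate.mulVec (img ι p l) = (mat ι p).det • sg (bar ι p l) := by
          unfold img
          rw [Matrix.mulVec_mulVec, Matrix.adjugate_mul, Matrix.smul_mulVec, Matrix.one_mulVec]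
        change (if l ∈ Finset.univ.image ι then (mat ι p).det⁻¹ else
          img ι p l 2 / (mat ι p).det) • _ = _
        rw [if_neg hl', e3, smul_smul, smul_smul]
        have e4 : img ι p l 2 / (mat ι p).det * (img ι p l 2)⁻¹ * (mat ι p).det = 1 := by
          field_simp
        rw [e4, one_smul]) h3
  have h5 := h4.mat (mat ι p) hD
  have h6 := h5.smul (fun i => (c2 i * (mat ι p).det)⁻¹)
    (fun i => inv_ne_zero (mul_ne_zero (hc2 i) hD))
  apply S_of_HS
  have e : (fun i => hat (p i)) = (fun i => (fun i => (c2 i * (mat ι p).det)⁻¹) i •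
      (fun i => (mat ι p).mulVec ((fun i => c2 i • bar ι p i) i)) i) := by
    funext i
    change hat (p i) = (c2 i * (mat ι p).det)⁻¹ • (mat ι p).mulVec (c2 i • bar ι p i)
    have e3 : (mat ι p).mulVec (bar ι p i) = (mat ι p).det • hat (p i) := by
      unfold bar
      rw [Matrix.mulVec_mulVec, Matrix.mul_adjugate, Matrix.smul_mulVec, Matrix.one_mulVec]
    rw [Matrix.mulVec_smul, e3, smul_smul, smul_smul, mul_assoc,
      inv_mul_cancel₀ (mul_ne_zero (hc2 i) hD), one_smul]
  rw [e]
  exact h6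

end Pool.MP_70e04f_ag.Cre
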