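import Pool.Agent.Lib_MP_70e04f_dich.Line

/-!
# Quadratic transformations of plane linear systems: definitions
-/

namespace Pool.MP_70e04f_ag.Cre

open MvPolynomial

/-- Polynomials in two variables. -/
abbrev R2 := MvPolynomial (Fin 2) ℂ

/-- Polynomials in three variables. -/
abbrev R3 := MvPolynomial (Fin 3) ℂ

/-- The maximal ideal of a point. -/
noncomputable abbrev mi {k : ℕ} (q : Fin k → ℂ) : Ideal (MvPolynomial (Fin k) ℂ) :=
  RingHom.ker (MvPolynomial.eval q)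

/-- The curves of degree at most `d` with multiplicities `m` at the points `p`. -/
noncomputable def V {n : ℕ} (d : ℕ) (m : Fin n → ℕ) (p : Fin n → Fin 2 → ℂ) : Submodule ℂ R2 :=
  MvPolynomial.restrictTotalDegree (Fin 2) ℂ d ⊓
    ⨅ i : Fin n, Submodule.restrictScalars ℂ (mi (p i) ^ m i)

/-- The forms of degree `d` with multiplicities `m` at the points `q`. -/
noncomputable def W {n : ℕ} (d : ℕ) (m : Fin n → ℕ) (q : Fin n → Fin 3 → ℂ) : Submodule ℂ R3 :=
  homogeneousSubmodule (Fin 3) ℂ d ⊓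
    ⨅ i : Fin n, Submodule.restrictScalars ℂ (mi (q i) ^ m i)

/-- The dimension `N` is the expected one. -/
def Dim {n : ℕ} (d : ℕ) (m : Fin n → ℕ) (N : ℕ) : Prop :=
  (2 : ℤ) * (N : ℤ) = max 0 (((d : ℤ) + 1) * ((d : ℤ) + 2) - ∑ i, (m i : ℤ) * ((m i : ℤ) + 1))

/-- The numerical conditions on a `(-1)`-curve of degree `e` and multiplicities `a` which
intersects the system in at most `-2`. -/
def Neg {n : ℕ} (d : ℕ) (m : Fin n → ℕ) (e : ℕ) (a : Fin n → ℕ) : Prop :=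
  (e : ℤ) ^ 2 - ∑ i, (a i : ℤ) ^ 2 = -1 ∧ 3 * (e : ℤ) - ∑ i, (a i : ℤ) = 1 ∧
    (d : ℤ) * (e : ℤ) - ∑ i, (a i : ℤ) * (m i : ℤ) ≤ -2

/-- The alternative of the conjecture at a given configuration of points of the plane. -/
def S {n : ℕ} (d : ℕ) (m : Fin n → ℕ) (p : Fin n → Fin 2 → ℂ) : Prop :=
  Dim d m (Module.finrank ℂ ↥(V d m p)) ∨
    ∃ f : R2, ∃ e : ℕ, ∃ a : Fin n → ℕ, Irreducible f ∧ f.totalDegree = e ∧
      (∀ i, f ∈ mi (p i) ^ a i ∧ f ∉ mi (p i) ^ (a i + 1)) ∧ Neg d m e a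

/-- The alternative of the conjecture at a given configuration of points with homogeneous
coordinates. -/
def HS {n : ℕ} (d : ℕ) (m : Fin n → ℕ) (q : Fin n → Fin 3 → ℂ) : Prop :=
  Dim d m (Module.finrank ℂ ↥(W d m q)) ∨
    ∃ F : R3, ∃ e : ℕ, ∃ a : Fin n → ℕ, Irreducible F ∧ F.IsHomogeneous e ∧
      (∀ i, F ∈ mi (q i) ^ a i ∧ F ∉ mi (q i) ^ (a i + 1)) ∧ Neg d m e a

lemma shgh_iff {n : ℕ} (d : ℕ) (m : Fin n → ℕ) : Dich.SHGH d m ↔
    ∃ g : MvPolynomial (Fin n × Fin 2) ℂ, g ≠ 0 ∧ ∀ p : Fin n → Fin 2 → ℂ,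
      MvPolynomial.eval (fun q : Fin n × Fin 2 => p q.1 q.2) g ≠ 0 → S d m p :=
  Iff.rfl

/-! ### Homogeneous coordinates -/

/-- Homogeneous coordinates of a point of the plane. -/
def hat (p : Fin 2 → ℂ) : Fin 3 → ℂ := ![p 0, p 1, 1]

/-- The substitution `X 2 = 1`. -/
noncomputable def deh : R3 →ₐ[ℂ] R2 := aeval ![X 0, X 1, 1]

/-- The form of degree `e` given by a polynomial (of degree at most `e`). -/
noncomputable def hom (e : ℕ) : R2 →ₗ[ℂ] R3 :=
  (MvPolynomial.basisMonomials (Fin 2) ℂ).constr ℂ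
    fun s => X 0 ^ s 0 * X 1 ^ s 1 * X 2 ^ (e - (s 0 + s 1))

lemma hom_monomial (e : ℕ) (s : Fin 2 →₀ ℕ) (c : ℂ) : hom e (monomial s c) =
    C c * (X 0 ^ s 0 * X 1 ^ s 1 * X 2 ^ (e - (s 0 + s 1))) := by
  have h : (monomial s c : R2) = c • MvPolynomial.basisMonomials (Fin 2) ℂ s := by
    rw [MvPolynomial.coe_basisMonomials, MvPolynomial.smul_monomial, smul_eq_mul, mul_one]
  rw [h, map_smul, hom, Module.Basis.constr_basis, MvPolynomial.smul_eq_C_mul]

/-- Linear substitutions. -/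
noncomputable def lin (A : Matrix (Fin 3) (Fin 3) ℂ) : R3 →ₐ[ℂ] R3 :=
  aeval (fun i => ∑ j, C (A i j) * X j)

/-! ### The standard quadratic transformation -/

/-- The standard quadratic transformation of the plane. -/
def sg (x : Fin 3 → ℂ) : Fin 3 → ℂ := ![x 1 * x 2, x 0 * x 2, x 0 * x 1]

/-- The substitution given by the standard quadratic transformation. -/
noncomputable def sub : R3 →ₐ[ℂ] R3 := aeval ![X 1 * X 2, X 0 * X 2, X 0 * X 1]

/-- The form with the opposite exponents. -/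
noncomputable def rev (ν : Fin 3 →₀ ℕ) : R3 →ₗ[ℂ] R3 :=
  (MvPolynomial.basisMonomials (Fin 3) ℂ).constr ℂ fun s => monomial (ν - s) 1

lemma rev_monomial (ν s : Fin 3 →₀ ℕ) (c : ℂ) : rev ν (monomial s c) = monomial (ν - s) c := by
  have h : (monomial s c : R3) = c • MvPolynomial.basisMonomials (Fin 3) ℂ s := by
    rw [MvPolynomial.coe_basisMonomials, MvPolynomial.smul_monomial, smul_eq_mul, mul_one]
  rw [h, map_smul, rev, Module.Basis.constr_basis, MvPolynomial.smul_monomial, smul_eq_mul,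
    mul_one]

/-- The multiplicities after a quadratic transformation with excess `δ` at the points `ι`. -/
def cm {n : ℕ} (m : Fin n → ℕ) (ι : Fin 3 → Fin n) (δ : ℕ) : Fin n → ℕ :=
  fun i => if i ∈ Finset.univ.image ι then m i - δ else m i

end Pool.MP_70e04f_ag.Cre
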