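import Pool.Agent.Lib_MP_70e04f_cre.Conf

/-!
# The quadratic transformation is an involution (piece CRINV)

PAPER PROOF. Let `A = mat ι p`, `D = A.det ≠ 0`. `crm ι p` and `p` agree at the points `ι j`, so
`mat ι (crm ι p) = A`. For `l` not in the image of `ι` let `r = bar ι p l`, `t = img ι p l`,
`t 2 ≠ 0`, so `hat (crm ι p l) = (t 2)⁻¹ • t`, `t = A.mulVec (sg r)` and
`bar ι (crm ι p) l = (t 2)⁻¹ • A.adjugate.mulVec (A.mulVec (sg r)) = (D / t 2) • sg r`
(`Matrix.adjugate_mul`, `Matrix.mulVec_mulVec`), no coordinate is zero as no coordinate of `r` is.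
`sg (c • x) = c ^ 2 • sg x` and `sg (sg r) = (r 0 * r 1 * r 2) • r`, so with
`k = (D / t 2) ^ 2 * (r 0 * r 1 * r 2) ≠ 0`
`img ι (crm ι p) l = k • A.mulVec r = (k * D) • hat (p l)` (`Matrix.mul_adjugate`), whose last
coordinate is `k * D ≠ 0`; so `crm ι p` is good, and the quotients of coordinates give
`crm ι (crm ι p) l = p l`.
-/

namespace Pool.MP_70e04f_ag.Cre

theorem inv_sg_smul (c : ℂ) (x : Fin 3 → ℂ) : sg (c • x) = c ^ 2 • sg x := by
  funext i
  fin_cases i <;> simp [sg] <;> ring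

theorem inv_sg_sg (r : Fin 3 → ℂ) : sg (sg r) = (r 0 * r 1 * r 2) • r := by
  funext i
  fin_cases i <;> simp [sg] <;> ring

theorem inv_mat {n : ℕ} (ι : Fin 3 → Fin n) (p : Fin n → Fin 2 → ℂ) :
    mat ι (crm ι p) = mat ι p := by
  ext c j
  have h : crm ι p (ι j) = p (ι j) := by
    unfold crm
    rw [if_pos (Finset.mem_image_of_mem ι (Finset.mem_univ j))]
  simp only [mat, Matrix.of_apply, h]

theorem inv_hat {n : ℕ} {ι : Fin 3 → Fin n} {p : Fin n → Fin 2 → ℂ} {l : Fin n}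
    (hl : l ∉ Finset.univ.image ι) (ht : img ι p l 2 ≠ 0) :
    hat (crm ι p l) = (img ι p l 2)⁻¹ • img ι p l := by
  have h : crm ι p l = ![img ι p l 0 / img ι p l 2, img ι p l 1 / img ι p l 2] := by
    unfold crm
    rw [if_neg hl]
  funext i
  rw [h]
  fin_cases i
  · simp [hat, div_eq_inv_mul]
  · simp [hat, div_eq_inv_mul]
  · simp [hat, inv_mul_cancel₀ ht]

theorem inv_bar {n : ℕ} {ι : Fin 3 → Fin n} {p : Fin n → Fin 2 → ℂ} {l : Fin n}
    (hl : l ∉ Finset.univ.image ι) (ht : img ι p l 2 ≠ 0) :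
    bar ι (crm ι p) l = ((img ι p l 2)⁻¹ * (mat ι p).det) • sg (bar ι p l) := by
  unfold bar
  rw [inv_mat, inv_hat hl ht, Matrix.mulVec_smul]
  have h : (mat ι p).adjugate.mulVec (img ι p l) = (mat ι p).det • sg (bar ι p l) := by
    unfold img
    rw [Matrix.mulVec_mulVec, Matrix.adjugate_mul, Matrix.smul_mulVec, Matrix.one_mulVec]
  rw [h, smul_smul]
  rfl

theorem inv_img {n : ℕ} {ι : Fin 3 → Fin n} {p : Fin n → Fin 2 → ℂ} {l : Fin n}
    (hl : l ∉ Finset.univ.image ι) (ht : img ι p l 2 ≠ 0) :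
    img ι (crm ι p) l = (((img ι p l 2)⁻¹ * (mat ι p).det) ^ 2 *
      (bar ι p l 0 * bar ι p l 1 * bar ι p l 2) * (mat ι p).det) • hat (p l) := by
  unfold img
  rw [inv_mat, inv_bar hl ht, inv_sg_smul, inv_sg_sg, smul_smul, Matrix.mulVec_smul]
  have h : (mat ι p).mulVec (bar ι p l) = (mat ι p).det • hat (p l) := by
    unfold bar
    rw [Matrix.mulVec_mulVec, Matrix.mul_adjugate, Matrix.smul_mulVec, Matrix.one_mulVec]
  rw [h, smul_smul]
  rfl

theorem inv_const {n : ℕ} {ι : Fin 3 → Fin n} {p : Fin n → Fin 2 → ℂ} {l : Fin n}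
    (hd : (mat ι p).det ≠ 0) (hb : ∀ c, bar ι p l c ≠ 0) (ht : img ι p l 2 ≠ 0) :
    ((img ι p l 2)⁻¹ * (mat ι p).det) ^ 2 *
      (bar ι p l 0 * bar ι p l 1 * bar ι p l 2) * (mat ι p).det ≠ 0 :=
  mul_ne_zero (mul_ne_zero (pow_ne_zero _ (mul_ne_zero (inv_ne_zero ht) hd))
    (mul_ne_zero (mul_ne_zero (hb 0) (hb 1)) (hb 2))) hd

theorem crm_good {n : ℕ} {ι : Fin 3 → Fin n} (hι : Function.Injective ι) {p : Fin n → Fin 2 → ℂ}
    (hp : Good ι p) : Good ι (crm ι p) := by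
  obtain ⟨hd, hp⟩ := hp
  refine ⟨by rw [inv_mat]; exact hd, fun l hl => ?_⟩
  obtain ⟨hb, ht⟩ := hp l hl
  refine ⟨fun c => ?_, ?_⟩
  · rw [inv_bar hl ht, Pi.smul_apply, smul_eq_mul]
    refine mul_ne_zero (mul_ne_zero (inv_ne_zero ht) hd) ?_
    fin_cases c
    · exact mul_ne_zero (hb 1) (hb 2)
    · exact mul_ne_zero (hb 0) (hb 2)
    · exact mul_ne_zero (hb 0) (hb 1)
  · rw [inv_img hl ht, Pi.smul_apply, smul_eq_mul]
    refine mul_ne_zero (inv_const hd hb ht) ?_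
    simp [hat]

theorem crm_crm {n : ℕ} {ι : Fin 3 → Fin n} (hι : Function.Injective ι) {p : Fin n → Fin 2 → ℂ}
    (hp : Good ι p) : crm ι (crm ι p) = p := by
  obtain ⟨hd, hp⟩ := hp
  funext l
  by_cases hl : l ∈ Finset.univ.image ι
  · have h1 : crm ι (crm ι p) l = crm ι p l := by
      conv_lhs => unfold crm
      rw [if_pos hl]
      rfl
    rw [h1]
    unfold crm
    rw [if_pos hl]
  · obtain ⟨hb, ht⟩ := hp l hl
    have h1 : crm ι (crm ι p) l = ![img ι (crm ι p) l 0 / img ι (crm ι p) l 2,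
        img ι (crm ι p) l 1 / img ι (crm ι p) l 2] := by
      conv_lhs => unfold crm
      rw [if_neg hl]
      rfl
    have hk := inv_const hd hb ht
    rw [h1, inv_img hl ht]
    funext i
    fin_cases i
    · simp only [Pi.smul_apply, smul_eq_mul, Fin.zero_eta, Matrix.cons_val_zero]
      rw [mul_div_mul_left _ _ hk]
      simp [hat]
    · simp only [Pi.smul_apply, smul_eq_mul, Fin.mk_one, Matrix.cons_val_one,
        Matrix.cons_val_fin_one]
      rw [mul_div_mul_left _ _ hk]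
      simp [hat]

end Pool.MP_70e04f_ag.Cre
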