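import Pool.Agent.Lib_MP_70e04f_cre.Gen
import Pool.Agent.Lib_MP_70e04f_cre.Inv

/-!
# The quadratic transformation of a general configuration (piece CRGEND)

PAPER PROOF. Part (D) of the docstring of `Gen.lean`. Take `h0` from `exists_good`. For `(A)` let
`τ = σ = Fin n × Fin 2`, and let `T l c` be the polynomial with `eval p (T l c) = img ι p l c` (write
`mat`, `bar`, `img` for the generic configuration with coordinates `X (l, c)` in the ring
`MvPolynomial (Fin n × Fin 2) ℂ`, and map with `eval`), `w = ∏ l, (if l is in the image then 1 else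
T l 2)`, `u (l, c) = X (l, c) * w` if `l` is in the image and
`T l c * ∏ l' ≠ l, (if l' is in the image then 1 else T l' 2)` otherwise; so `eval p (u i) / eval p w`
is the coordinate `i` of `crm ι p` if `eval p w ≠ 0`.
-/

namespace Pool.MP_70e04f_ag.Cre

open MvPolynomial

/-- polynomials in the coordinates of a configuration -/
abbrev GenD.RC (n : ℕ) := MvPolynomial (Fin n × Fin 2) ℂ

/-- evaluation at a configuration -/
noncomputable def GenD.ev {n : ℕ} (p : Fin n → Fin 2 → ℂ) : GenD.RC n →+* ℂ :=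
  MvPolynomial.eval (fun q : Fin n × Fin 2 => p q.1 q.2)

/-- the generic point -/
noncomputable def GenD.hatP {n : ℕ} (l : Fin n) : Fin 3 → GenD.RC n := ![X (l, 0), X (l, 1), 1]

/-- the generic matrix -/
noncomputable def GenD.matP {n : ℕ} (ι : Fin 3 → Fin n) : Matrix (Fin 3) (Fin 3) (GenD.RC n) :=
  Matrix.of fun c j => GenD.hatP (ι j) c

noncomputable def GenD.barP {n : ℕ} (ι : Fin 3 → Fin n) (l : Fin n) : Fin 3 → GenD.RC n :=
  (GenD.matP ι).adjugate.mulVec (GenD.hatP l)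

noncomputable def GenD.imgP {n : ℕ} (ι : Fin 3 → Fin n) (l : Fin n) : Fin 3 → GenD.RC n :=
  (GenD.matP ι).mulVec ![GenD.barP ι l 1 * GenD.barP ι l 2, GenD.barP ι l 0 * GenD.barP ι l 2,
    GenD.barP ι l 0 * GenD.barP ι l 1]

lemma GenD.ev_hatP {n : ℕ} (p : Fin n → Fin 2 → ℂ) (l : Fin n) (c : Fin 3) :
    GenD.ev p (GenD.hatP l c) = hat (p l) c := by
  fin_cases c <;> simp [GenD.ev, GenD.hatP, hat]

lemma GenD.ev_matP {n : ℕ} (ι : Fin 3 → Fin n) (p : Fin n → Fin 2 → ℂ) :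
    (GenD.matP ι).map (GenD.ev p) = mat ι p := by
  ext c j
  simp only [Matrix.map_apply, GenD.matP, mat, Matrix.of_apply]
  exact GenD.ev_hatP p (ι j) c

lemma GenD.ev_barP {n : ℕ} (ι : Fin 3 → Fin n) (p : Fin n → Fin 2 → ℂ) (l : Fin n) (c : Fin 3) :
    GenD.ev p (GenD.barP ι l c) = bar ι p l c := by
  unfold GenD.barP bar
  rw [RingHom.map_mulVec]
  have h1 : (GenD.matP ι).adjugate.map (GenD.ev p) = (mat ι p).adjugate := by
    rw [← GenD.ev_matP ι p]
    exact RingHom.map_adjugate (GenD.ev p) (GenD.matP ι)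
  have h2 : (GenD.ev p) ∘ GenD.hatP l = hat (p l) := _root_.funext fun c => GenD.ev_hatP p l c
  rw [h1, h2]

lemma GenD.ev_imgP {n : ℕ} (ι : Fin 3 → Fin n) (p : Fin n → Fin 2 → ℂ) (l : Fin n) (c : Fin 3) :
    GenD.ev p (GenD.imgP ι l c) = img ι p l c := by
  unfold GenD.imgP img
  rw [RingHom.map_mulVec, GenD.ev_matP]
  have h2 : (GenD.ev p) ∘ ![GenD.barP ι l 1 * GenD.barP ι l 2,
      GenD.barP ι l 0 * GenD.barP ι l 2, GenD.barP ι l 0 * GenD.barP ι l 1] =
      sg (bar ι p l) := by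
    funext c
    fin_cases c <;> simp [sg, GenD.ev_barP]
  rw [h2]

/-- the factors of the common denominator -/
noncomputable def GenD.fac {n : ℕ} (ι : Fin 3 → Fin n) (l : Fin n) : GenD.RC n :=
  if l ∈ Finset.univ.image ι then 1 else GenD.imgP ι l 2

lemma GenD.ev_fac {n : ℕ} (ι : Fin 3 → Fin n) (p : Fin n → Fin 2 → ℂ) (l : Fin n) :
    GenD.ev p (GenD.fac ι l) = if l ∈ Finset.univ.image ι then 1 else img ι p l 2 := by
  unfold GenD.fac
  split_ifs
  · exact map_one _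
  · exact GenD.ev_imgP ι p l 2

/-- the numerators -/
noncomputable def GenD.num {n : ℕ} (ι : Fin 3 → Fin n) (i : Fin n × Fin 2) : GenD.RC n :=
  if i.1 ∈ Finset.univ.image ι then X i * ∏ l, GenD.fac ι l else
    GenD.imgP ι i.1 i.2.castSucc * ∏ l ∈ Finset.univ.erase i.1, GenD.fac ι l

lemma GenD.ev_w {n : ℕ} (ι : Fin 3 → Fin n) (p : Fin n → Fin 2 → ℂ) :
    GenD.ev p (∏ l, GenD.fac ι l) =
      ∏ l, (if l ∈ Finset.univ.image ι then 1 else img ι p l 2) := by
  rw [map_prod]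
  exact Finset.prod_congr rfl fun l _ => GenD.ev_fac ι p l

lemma GenD.quot {n : ℕ} (ι : Fin 3 → Fin n) (p : Fin n → Fin 2 → ℂ)
    (hw : GenD.ev p (∏ l, GenD.fac ι l) ≠ 0) (i : Fin n × Fin 2) :
    GenD.ev p (GenD.num ι i) / GenD.ev p (∏ l, GenD.fac ι l) = crm ι p i.1 i.2 := by
  unfold GenD.num crm
  by_cases h : i.1 ∈ Finset.univ.image ι
  · rw [if_pos h, if_pos h, map_mul, mul_div_assoc, div_self hw, mul_one]
    exact MvPolynomial.eval_X i
  · rw [if_neg h, if_neg h]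
    have h1 := Finset.mul_prod_erase Finset.univ (GenD.fac ι) (Finset.mem_univ i.1)
    have h2 : GenD.ev p (GenD.fac ι i.1) = img ι p i.1 2 := by
      rw [GenD.ev_fac, if_neg h]
    rw [← h1, map_mul, h2] at hw
    rw [← h1, map_mul, map_mul, h2, GenD.ev_imgP]
    obtain ⟨ha, hb⟩ := mul_ne_zero_iff.1 hw
    rw [mul_div_mul_right _ _ hb]
    obtain ⟨l, c⟩ := i
    fin_cases c <;> simp

lemma GenD.w_ne {n : ℕ} (ι : Fin 3 → Fin n) (p : Fin n → Fin 2 → ℂ) (hp : Good ι p) :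
    GenD.ev p (∏ l, GenD.fac ι l) ≠ 0 := by
  rw [GenD.ev_w, Finset.prod_ne_zero_iff]
  intro l _
  split_ifs with h
  · exact one_ne_zero
  · exact (hp.2 l h).2

theorem exists_generic {n : ℕ} (ι : Fin 3 → Fin n) (hι : Function.Injective ι)
    (g' : MvPolynomial (Fin n × Fin 2) ℂ) (hg' : g' ≠ 0) :
    ∃ g : MvPolynomial (Fin n × Fin 2) ℂ, g ≠ 0 ∧ ∀ p : Fin n → Fin 2 → ℂ,
      MvPolynomial.eval (fun q : Fin n × Fin 2 => p q.1 q.2) g ≠ 0 →
        Good ι p ∧ MvPolynomial.eval (fun q : Fin n × Fin 2 => crm ι p q.1 q.2) g' ≠ 0 := by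
  obtain ⟨h0, hh0, hgood⟩ := exists_good ι hι
  obtain ⟨G, N, hG⟩ := exists_clear (GenD.num ι) (∏ l, GenD.fac ι l) g'
  have key : ∀ p : Fin n → Fin 2 → ℂ, Good ι p →
      MvPolynomial.eval (fun q : Fin n × Fin 2 => p q.1 q.2) G =
        GenD.ev p (∏ l, GenD.fac ι l) ^ N *
          MvPolynomial.eval (fun q : Fin n × Fin 2 => crm ι p q.1 q.2) g' := by
    intro p hp
    have h1 := hG (fun q : Fin n × Fin 2 => p q.1 q.2) (GenD.w_ne ι p hp)
    rw [h1]
    have h2 : (fun i => MvPolynomial.eval (fun q : Fin n × Fin 2 => p q.1 q.2) (GenD.num ι i) /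
        MvPolynomial.eval (fun q : Fin n × Fin 2 => p q.1 q.2) (∏ l, GenD.fac ι l)) =
        fun q : Fin n × Fin 2 => crm ι p q.1 q.2 :=
      _root_.funext fun i => GenD.quot ι p (GenD.w_ne ι p hp) i
    rw [h2]
    rfl
  refine ⟨h0 * G, ?_, ?_⟩
  · have h1 : g' * h0 ≠ 0 := mul_ne_zero hg' hh0
    have h2 : ∃ x : Fin n × Fin 2 → ℂ, MvPolynomial.eval x (g' * h0) ≠ 0 := by
      by_contra hcon
      push Not at hcon
      exact h1 (MvPolynomial.funext fun x => by rw [hcon x, map_zero])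
    obtain ⟨x, hx⟩ := h2
    rw [map_mul] at hx
    obtain ⟨hx1, hx2⟩ := mul_ne_zero_iff.1 hx
    let p0 : Fin n → Fin 2 → ℂ := fun l c => x (l, c)
    have hp0 : (fun q : Fin n × Fin 2 => p0 q.1 q.2) = x := rfl
    have hg0 : Good ι p0 := (hgood p0).1 (by rw [hp0]; exact hx2)
    have hg1 : Good ι (crm ι p0) := crm_good hι hg0
    intro hz
    have h3 : MvPolynomial.eval (fun q : Fin n × Fin 2 => crm ι p0 q.1 q.2) (h0 * G) = 0 := by
      rw [hz, map_zero]
    rw [map_mul, key _ hg1, crm_crm hι hg0, hp0] at h3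
    have h4 := (hgood _).2 hg1
    have h5 := GenD.w_ne ι _ hg1
    exact mul_ne_zero h4 (mul_ne_zero (pow_ne_zero _ h5) hx1) h3
  · intro p hp
    rw [map_mul] at hp
    obtain ⟨h1, h2⟩ := mul_ne_zero_iff.1 hp
    have hg := (hgood p).1 h1
    refine ⟨hg, ?_⟩
    rw [key p hg] at h2
    exact (mul_ne_zero_iff.1 h2).2

end Pool.MP_70e04f_ag.Cre
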