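import Pool.Agent.Lib_MP_70e04f_cre.ConfS
import Pool.Agent.Lib_MP_70e04f_cre.GenD
import Pool.Agent.Lib_MP_70e04f_cre.Base

/-!
# The conjecture for all systems of large self-intersection
-/

namespace Pool.MP_70e04f_ag.Cre

open MvPolynomial

/-- Invariance of the conjecture under quadratic transformations. -/
theorem shgh_cremona {n d d' δ : ℕ} {m : Fin n → ℕ} {ι : Fin 3 → Fin n}
    (hι : Function.Injective ι) (hd : d' + δ = d) (hsum : ∑ j, m (ι j) = d + δ)
    (hpair : ∀ j k, j ≠ k → m (ι j) + m (ι k) ≤ d + 1) (hsq : ∑ i, m i ^ 2 ≤ d ^ 2)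
    (h : Dich.SHGH d' (cm m ι δ)) : Dich.SHGH d m := by
  rw [shgh_iff] at h ⊢
  obtain ⟨g', hg', h'⟩ := h
  obtain ⟨g, hg, h2⟩ := exists_generic ι hι g' hg'
  refine ⟨g, hg, fun p hp => ?_⟩
  obtain ⟨hgood, hne⟩ := h2 p hp
  exact S.cremona hι hd hsum hpair hsq hgood (h' _ hne)

lemma sum_le_of_sq {n d : ℕ} {m : Fin n → ℕ} {ι : Fin 3 → Fin n} (hι : Function.Injective ι)
    (hsq : ∑ i, m i ^ 2 ≤ d ^ 2) : ∑ j, m (ι j) ≤ 2 * d := by
  have h1 : ∑ j, m (ι j) ^ 2 ≤ d ^ 2 := by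
    refine le_trans ?_ hsq
    rw [← Finset.sum_image (f := fun i => m i ^ 2) (fun a _ b _ hab => hι hab)]
    exact Finset.sum_le_sum_of_subset (Finset.subset_univ _)
  rw [Fin.sum_univ_three] at h1 ⊢
  nlinarith [sq_nonneg ((m (ι 0) : ℤ) - m (ι 1)), sq_nonneg ((m (ι 0) : ℤ) - m (ι 2)),
    sq_nonneg ((m (ι 1) : ℤ) - m (ι 2))]

/-- The conjecture for all systems with `d ^ 2 - ∑ m i ^ 2 ≥ 3100 m ^ 3`, where all but nine
multiplicities are at most `m`. -/
theorem shgh_large {n m : ℕ} (α : Fin 9 → Fin n) (hα : Function.Injective α) (d : ℕ)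
    (mm : Fin n → ℕ) (hother : ∀ i, i ∉ Set.range α → mm i ≤ m)
    (hsq : ∑ i, mm i ^ 2 + 3100 * m ^ 3 ≤ d ^ 2) : Dich.SHGH d mm := by
  induction d using Nat.strong_induction_on generalizing mm with
  | _ d ih =>
    by_cases h2 : ∃ i j, i ≠ j ∧ d + 2 ≤ mm i + mm j
    · obtain ⟨i, j, hij, h⟩ := h2
      exact Dich.line_alt mm i j hij h
    push Not at h2
    by_cases h3 : ∀ ι : Fin 3 → Fin n, Function.Injective ι → ∑ j, mm (ι j) ≤ d
    · obtain ⟨g, hg, h⟩ := base mm α hα hother h3 hsq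
      exact ⟨g, hg, fun p hp => Or.inl (h p hp)⟩
    push Not at h3
    obtain ⟨ι, hι, h3⟩ := h3
    have hsq0 : ∑ i, mm i ^ 2 ≤ d ^ 2 := by omega
    have h4 := sum_le_of_sq hι hsq0
    obtain ⟨δ, hδ⟩ : ∃ δ, ∑ j, mm (ι j) = d + δ := ⟨∑ j, mm (ι j) - d, by omega⟩
    have hpair : ∀ j k, j ≠ k → mm (ι j) + mm (ι k) ≤ d + 1 := by
      intro j k hjk
      have := h2 (ι j) (ι k) (fun h => hjk (hι h))
      omega
    have hlow : ∀ j, δ ≤ mm (ι j) + 1 := by
      rw [Fin.sum_univ_three] at hδ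
      have p01 := hpair 0 1 (by decide)
      have p02 := hpair 0 2 (by decide)
      have p12 := hpair 1 2 (by decide)
      intro j
      fin_cases j <;> simp <;> omega
    refine shgh_cremona (d' := d - δ) hι (by omega) hδ hpair hsq0 ?_
    apply ih (d - δ) (by omega)
    · intro i hi
      refine le_trans ?_ (hother i hi)
      unfold cm
      split_ifs
      · exact Nat.sub_le _ _
      · exact le_rfl
    · exact sq_cm hι (by omega) hδ hlow hsq

/-- Emptiness in degree `d` gives the conjecture in smaller degrees. -/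
lemma shgh_le {n : ℕ} {d D : ℕ} {mm : Fin n → ℕ} (h : Dich.SHGH d mm) (hD : D ≤ d)
    (hT : (d + 1) * (d + 2) ≤ ∑ i, mm i * (mm i + 1)) : Dich.SHGH D mm := by
  rw [shgh_iff] at h ⊢
  obtain ⟨g, hg0, hg⟩ := h
  refine ⟨g, hg0, fun p hp => ?_⟩
  have hT' : (((d + 1) * (d + 2) : ℕ) : ℤ) ≤ ∑ i, (mm i : ℤ) * ((mm i : ℤ) + 1) := by
    have : (((d + 1) * (d + 2) : ℕ) : ℤ) ≤ ((∑ i, mm i * (mm i + 1) : ℕ) : ℤ) := by
      exact_mod_cast hT
    push_cast at this ⊢
    exact this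
  rcases hg p hp with h1 | ⟨f, e, a, hf, he, ha, h1, h2, h3⟩
  · left
    have e2 : ((d : ℤ) + 1) * ((d : ℤ) + 2) - ∑ i, (mm i : ℤ) * ((mm i : ℤ) + 1) ≤ 0 := by
      push_cast at hT'
      linarith
    unfold Dim at h1 ⊢
    rw [max_eq_left e2] at h1
    have hle : V D mm p ≤ V d mm p := by
      apply inf_le_inf_right
      intro f hf
      rw [MvPolynomial.mem_restrictTotalDegree] at hf ⊢
      omega
    have : Module.Finite ℂ ↥(V d mm p) := Submodule.finiteDimensional_inf_left _ _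
    have h2 := Submodule.finrank_mono hle
    have e3 : ((D : ℤ) + 1) * ((D : ℤ) + 2) - ∑ i, (mm i : ℤ) * ((mm i : ℤ) + 1) ≤ 0 := by
      have h3 : (D + 1) * (D + 2) ≤ (d + 1) * (d + 2) := Nat.mul_le_mul (by omega) (by omega)
      have h4 : (((D + 1) * (D + 2) : ℕ) : ℤ) ≤ (((d + 1) * (d + 2) : ℕ) : ℤ) := by
        exact_mod_cast h3
      push_cast at h4 hT'
      linarith
    rw [max_eq_left e3]
    omega
  · right
    refine ⟨f, e, a, hf, he, ha, h1, h2, ?_⟩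
    have h4 : (D : ℤ) * e ≤ (d : ℤ) * e :=
      mul_le_mul_of_nonneg_right (by exact_mod_cast hD) (by positivity)
    linarith

/-- The conjecture for all systems with `d ^ 2 - ∑ m i ^ 2 ≥ 3100 m ^ 3`, where all but nine
multiplicities are at most `m`; also in lower degrees. -/
theorem shgh_self {n m d D : ℕ} (mm : Fin n → ℕ) (U : Finset (Fin n)) (hn : 9 ≤ n)
    (hU : U.card ≤ 9) (hother : ∀ i, i ∉ U → mm i ≤ m)
    (hsq : ∑ i, mm i ^ 2 + 3100 * m ^ 3 ≤ d ^ 2)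
    (hD : D = d ∨ D ≤ d ∧ (d + 1) * (d + 2) ≤ ∑ i, mm i * (mm i + 1)) : Dich.SHGH D mm := by
  obtain ⟨T, hUT, hT⟩ := Finset.exists_superset_card_eq hU (by simpa using hn)
  have h := shgh_large (m := m) (fun j => T.orderEmbOfFin hT j) (T.orderEmbOfFin hT).injective d mm
    (by
      intro i hi
      apply hother
      intro hiU
      apply hi
      have h1 : i ∈ Set.range (T.orderEmbOfFin hT) := by
        rw [Finset.range_orderEmbOfFin]
        exact hUT hiU
      exact h1) hsq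
  rcases hD with rfl | ⟨h1, h2⟩
  · exact h
  · exact shgh_le h h1 h2

end Pool.MP_70e04f_ag.Cre
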