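import Pool.Agent.Lib_MP_70e04f_cre.Conf

/-!
# The quadratic transformation of a general configuration (piece CRGEN)

PAPER PROOF. (A) `exists_clear`: substitution of rational functions with a common denominator.
Induction on `g'` (`MvPolynomial.induction_on`): constants `N = 0`; sums: multiply the one with the
smaller exponent by a power of `w`; product with `X i`: `N + 1`, `G * u i`.

(B) `Good ι p` is the nonvanishing of a polynomial `h0` in the coordinates of `p`: the product of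
`(mat ι p).det`, and of `bar ι p l c` and `img ι p l 2` over `c` and over `l` not in the image of
`ι`. (Write the matrix `mat` with polynomial entries `X (ι j, 0)`, `X (ι j, 1)`, `1`, its adjugate,
and so on; evaluation is a ring homomorphism, `RingHom.map_det`, `RingHom.map_adjugate`,
`RingHom.map_mulVec`.) `h0 ≠ 0`: at the configuration `p (ι 0) = (0, 0)`, `p (ι 1) = (1, 0)`,
`p (ι 2) = (0, 1)`, `p l = (1 / 3, 1 / 3)` the matrix is `!![0, 1, 0; 0, 0, 1; 1, 1, 1]`, its
determinant is `1` or `-1`, and `bar ι p l` is `± (1 / 3, 1 / 3, 1 / 3)`, `img ι p l 2` is the sum of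
the coordinates of `sg (bar ι p l)`, `1 / 3`.

(C) `crm_good`, `crm_crm` (in `Inv.lean`).

(D) Let `w = ∏ l ∉ image, img ι _ l 2` as a polynomial and apply (A) to `crm ι p` (coordinates
`p l c` or `img ι p l c / img ι p l 2`, written with the common denominator `w`): there are `G`, `N`
with `eval p G = (w p) ^ N * eval (crm ι p) g'` for all `p` with `w p ≠ 0`. Let `g = h0 * G`. If
`g p ≠ 0` then `p` is good, `w p ≠ 0` and `eval (crm ι p) g' ≠ 0`. `g ≠ 0`: `g' * h0 ≠ 0`, so there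
is `p0` with `g' p0 ≠ 0` and `h0 p0 ≠ 0` (`MvPolynomial.funext`, contraposition); let
`p = crm ι p0`; `p` is good and `crm ι p = p0` by (C), so `h0 p ≠ 0` and
`G p = (w p) ^ N * g' p0 ≠ 0`.
-/

namespace Pool.MP_70e04f_ag.Cre

open MvPolynomial

/-- Clearing denominators. -/
theorem exists_clear {σ τ : Type*} (u : σ → MvPolynomial τ ℂ) (w : MvPolynomial τ ℂ)
    (g' : MvPolynomial σ ℂ) : ∃ G : MvPolynomial τ ℂ, ∃ N : ℕ, ∀ x : τ → ℂ,
      MvPolynomial.eval x w ≠ 0 → MvPolynomial.eval x G =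
        MvPolynomial.eval x w ^ N *
          MvPolynomial.eval (fun i => MvPolynomial.eval x (u i) / MvPolynomial.eval x w) g' := by
  induction g' using MvPolynomial.induction_on with
  | C c =>
    refine ⟨C c, 0, fun x _ => ?_⟩
    rw [eval_C, eval_C, pow_zero, one_mul]
  | add g h hg hh =>
    obtain ⟨G, N, hG⟩ := hg
    obtain ⟨G', N', hG'⟩ := hh
    refine ⟨w ^ N' * G + w ^ N * G', N + N', fun x hx => ?_⟩
    rw [map_add, map_mul, map_mul, map_pow, map_pow, hG x hx, hG' x hx, map_add]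
    ring
  | mul_X g i hg =>
    obtain ⟨G, N, hG⟩ := hg
    refine ⟨G * u i, N + 1, fun x hx => ?_⟩
    rw [map_mul, map_mul, hG x hx, eval_X, pow_succ]
    field_simp

section

variable {n : ℕ}

/-- `hat`, with polynomial entries. -/
noncomputable def CRGEN_hat (l : Fin n) : Fin 3 → MvPolynomial (Fin n × Fin 2) ℂ :=
  ![X (l, 0), X (l, 1), 1]

/-- `mat`, with polynomial entries. -/
noncomputable def CRGEN_mat (ι : Fin 3 → Fin n) :
    Matrix (Fin 3) (Fin 3) (MvPolynomial (Fin n × Fin 2) ℂ) :=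
  Matrix.of fun c j => CRGEN_hat (ι j) c

/-- `bar`, with polynomial entries. -/
noncomputable def CRGEN_bar (ι : Fin 3 → Fin n) (l : Fin n) :
    Fin 3 → MvPolynomial (Fin n × Fin 2) ℂ :=
  (CRGEN_mat ι).adjugate.mulVec (CRGEN_hat l)

/-- `sg`, with polynomial entries. -/
noncomputable def CRGEN_sg (x : Fin 3 → MvPolynomial (Fin n × Fin 2) ℂ) :
    Fin 3 → MvPolynomial (Fin n × Fin 2) ℂ := ![x 1 * x 2, x 0 * x 2, x 0 * x 1]

/-- `img`, with polynomial entries. -/
noncomputable def CRGEN_img (ι : Fin 3 → Fin n) (l : Fin n) :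
    Fin 3 → MvPolynomial (Fin n × Fin 2) ℂ :=
  (CRGEN_mat ι).mulVec (CRGEN_sg (CRGEN_bar ι l))

theorem CRGEN_eval_hat (p : Fin n → Fin 2 → ℂ) (l : Fin n) (c : Fin 3) :
    MvPolynomial.eval (fun q : Fin n × Fin 2 => p q.1 q.2) (CRGEN_hat l c) = hat (p l) c := by
  fin_cases c
  · exact eval_X _
  · exact eval_X _
  · exact map_one _

theorem CRGEN_eval_mat (ι : Fin 3 → Fin n) (p : Fin n → Fin 2 → ℂ) :
    (CRGEN_mat ι).map (MvPolynomial.eval (fun q : Fin n × Fin 2 => p q.1 q.2)) = mat ι p := by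
  ext c j
  exact CRGEN_eval_hat p (ι j) c

theorem CRGEN_eval_det (ι : Fin 3 → Fin n) (p : Fin n → Fin 2 → ℂ) :
    MvPolynomial.eval (fun q : Fin n × Fin 2 => p q.1 q.2) (CRGEN_mat ι).det =
      (mat ι p).det := by
  rw [RingHom.map_det, RingHom.mapMatrix_apply, CRGEN_eval_mat]

theorem CRGEN_eval_bar (ι : Fin 3 → Fin n) (p : Fin n → Fin 2 → ℂ) (l : Fin n) (c : Fin 3) :
    MvPolynomial.eval (fun q : Fin n × Fin 2 => p q.1 q.2) (CRGEN_bar ι l c) = bar ι p l c := by
  unfold CRGEN_bar bar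
  have h1 : (CRGEN_mat ι).adjugate.map
      (MvPolynomial.eval (fun q : Fin n × Fin 2 => p q.1 q.2)) = (mat ι p).adjugate := by
    rw [← CRGEN_eval_mat]
    exact RingHom.map_adjugate _ _
  have h2 : ⇑(MvPolynomial.eval (fun q : Fin n × Fin 2 => p q.1 q.2)) ∘ CRGEN_hat l =
      hat (p l) := _root_.funext fun c => CRGEN_eval_hat p l c
  rw [RingHom.map_mulVec, h1, h2]

theorem CRGEN_eval_sg (p : Fin n → Fin 2 → ℂ) {x : Fin 3 → MvPolynomial (Fin n × Fin 2) ℂ}
    {y : Fin 3 → ℂ}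
    (h : ∀ c, MvPolynomial.eval (fun q : Fin n × Fin 2 => p q.1 q.2) (x c) = y c) (c : Fin 3) :
    MvPolynomial.eval (fun q : Fin n × Fin 2 => p q.1 q.2) (CRGEN_sg x c) = sg y c := by
  fin_cases c
  · show MvPolynomial.eval _ (x 1 * x 2) = y 1 * y 2
    rw [map_mul, h, h]
  · show MvPolynomial.eval _ (x 0 * x 2) = y 0 * y 2
    rw [map_mul, h, h]
  · show MvPolynomial.eval _ (x 0 * x 1) = y 0 * y 1
    rw [map_mul, h, h]

theorem CRGEN_eval_img (ι : Fin 3 → Fin n) (p : Fin n → Fin 2 → ℂ) (l : Fin n) (c : Fin 3) :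
    MvPolynomial.eval (fun q : Fin n × Fin 2 => p q.1 q.2) (CRGEN_img ι l c) = img ι p l c := by
  unfold CRGEN_img img
  have h2 : ⇑(MvPolynomial.eval (fun q : Fin n × Fin 2 => p q.1 q.2)) ∘
      CRGEN_sg (CRGEN_bar ι l) = sg (bar ι p l) :=
    _root_.funext fun c => CRGEN_eval_sg p (CRGEN_eval_bar ι p l) c
  rw [RingHom.map_mulVec, CRGEN_eval_mat, h2]

theorem CRGEN_example (ι : Fin 3 → Fin n) (hι : Function.Injective ι) :
    ∃ p : Fin n → Fin 2 → ℂ, Good ι p := by
  classical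
  let p : Fin n → Fin 2 → ℂ := fun l => if l = ι 0 then ![0, 0] else if l = ι 1 then ![1, 0] else
    if l = ι 2 then ![0, 1] else ![1 / 3, 1 / 3]
  have p0 : p (ι 0) = ![0, 0] := if_pos rfl
  have p1 : p (ι 1) = ![1, 0] := by
    show (if ι 1 = ι 0 then _ else _) = _
    rw [if_neg (fun h => by simpa using hι h), if_pos rfl]
  have p2 : p (ι 2) = ![0, 1] := by
    show (if ι 2 = ι 0 then _ else _) = _
    rw [if_neg (fun h => by simpa using hι h), if_neg (fun h => by simpa using hι h), if_pos rfl]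
  have pl : ∀ l, l ∉ Finset.univ.image ι → p l = ![1 / 3, 1 / 3] := by
    intro l hl
    have h : ∀ j, l ≠ ι j := fun j e => hl (Finset.mem_image.mpr ⟨j, Finset.mem_univ j, e.symm⟩)
    show (if l = ι 0 then _ else _) = _
    rw [if_neg (h 0), if_neg (h 1), if_neg (h 2)]
  have hA : mat ι p = !![0, 1, 0; 0, 0, 1; 1, 1, 1] := by
    ext c j
    show hat (p (ι j)) c = _
    fin_cases j
    · show hat (p (ι 0)) c = _
      rw [p0]
      fin_cases c <;> rfl
    · show hat (p (ι 1)) c = _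
      rw [p1]
      fin_cases c <;> rfl
    · show hat (p (ι 2)) c = _
      rw [p2]
      fin_cases c <;> rfl
  have hdet : (mat ι p).det = 1 := by
    rw [hA, Matrix.det_fin_three]
    simp
  have hv : ∀ x : Fin 3 → ℂ, (mat ι p).mulVec x = ![x 1, x 2, x 0 + x 1 + x 2] := by
    intro x
    rw [hA]
    ext c
    fin_cases c <;> simp [Matrix.mulVec, dotProduct, Fin.sum_univ_three]
  have hbar : ∀ l, l ∉ Finset.univ.image ι → bar ι p l = ![1 / 3, 1 / 3, 1 / 3] := by
    intro l hl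
    have h1 : hat (p l) = (mat ι p).mulVec ![1 / 3, 1 / 3, 1 / 3] := by
      rw [hv, pl l hl]
      ext c
      fin_cases c
      · rfl
      · rfl
      · show (1 : ℂ) = 1 / 3 + 1 / 3 + 1 / 3
        norm_num
    unfold bar
    rw [h1, Matrix.mulVec_mulVec, Matrix.adjugate_mul, hdet, one_smul, Matrix.one_mulVec]
  refine ⟨p, ?_, fun l hl => ⟨fun c => ?_, ?_⟩⟩
  · rw [hdet]
    exact one_ne_zero
  · rw [hbar l hl]
    fin_cases c <;> simp
  · unfold img
    rw [hv, hbar l hl]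
    show (1 / 3 * (1 / 3) + 1 / 3 * (1 / 3) + 1 / 3 * (1 / 3) : ℂ) ≠ 0
    norm_num

end

/-- The good configurations are given by the nonvanishing of a polynomial. -/
theorem exists_good {n : ℕ} (ι : Fin 3 → Fin n) (hι : Function.Injective ι) :
    ∃ h0 : MvPolynomial (Fin n × Fin 2) ℂ, h0 ≠ 0 ∧ ∀ p : Fin n → Fin 2 → ℂ,
      (MvPolynomial.eval (fun q : Fin n × Fin 2 => p q.1 q.2) h0 ≠ 0 ↔ Good ι p) := by
  have key : ∀ p : Fin n → Fin 2 → ℂ,
      (MvPolynomial.eval (fun q : Fin n × Fin 2 => p q.1 q.2) ((CRGEN_mat ι).det *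
        ∏ l ∈ Finset.univ.filter (fun l => l ∉ Finset.univ.image ι),
          ((∏ c, CRGEN_bar ι l c) * CRGEN_img ι l 2)) ≠ 0 ↔ Good ι p) := by
    intro p
    rw [map_mul, CRGEN_eval_det, map_prod, mul_ne_zero_iff, Finset.prod_ne_zero_iff]
    refine and_congr Iff.rfl ?_
    have h1 : ∀ l, MvPolynomial.eval (fun q : Fin n × Fin 2 => p q.1 q.2)
        ((∏ c, CRGEN_bar ι l c) * CRGEN_img ι l 2) = (∏ c, bar ι p l c) * img ι p l 2 := by
      intro l
      rw [map_mul, map_prod, CRGEN_eval_img]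
      congr 1
      exact Finset.prod_congr rfl fun c _ => CRGEN_eval_bar ι p l c
    refine forall_congr' fun l => ?_
    rw [Finset.mem_filter, h1, mul_ne_zero_iff, Finset.prod_ne_zero_iff]
    constructor
    · intro h hl
      obtain ⟨h2, h3⟩ := h ⟨Finset.mem_univ l, hl⟩
      exact ⟨fun c => h2 c (Finset.mem_univ c), h3⟩
    · intro h hl
      obtain ⟨h2, h3⟩ := h hl.2
      exact ⟨fun c _ => h2 c, h3⟩
  refine ⟨_, fun h => ?_, key⟩
  obtain ⟨p, hp⟩ := CRGEN_example ι hι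
  have h2 := (key p).mpr hp
  rw [h] at h2
  exact h2 (map_zero _)

end Pool.MP_70e04f_ag.Cre
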