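import Pool.Agent.Lib_MP_70e04f_cre.Homog

/-!
# Homogenisation and irreducibility (piece CRHIR)

PAPER PROOF. `deh_irreducible`: let `f = deh F`, so `F = hom e f` (`hom_deh`) and `f ≠ 0`, `t =
f.totalDegree ≤ e` (`totalDegree_deh`). By `hom_add_deg` `F = X 2 ^ (e - t) * hom t f`, so
`¬ X 2 ∣ F` gives `t = e`. `f` is not a unit: otherwise `f = C c`
(`MvPolynomial.isUnit_iff_eq_C_of_isReduced` or `isUnit_iff_totalDegree_of_isReduced`), `t = 0`,
`F = C c` is a unit. If `f = g * h`, `a = g.totalDegree`, `b = h.totalDegree`, then `a + b = t`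
(`MvPolynomial.totalDegree_mul_of_isDomain`) and `F = hom a g * hom b h` (`hom_mul`), so one factor
is a unit, and its image under the ring homomorphism `deh` (`deh_hom`) too.

`hom_irreducible`: `F = hom e f` is not a unit as `f = deh F` is not. Let `F = G * H`,
`a = G.totalDegree`, `b = H.totalDegree`; `a + b = e` as `F` is homogeneous of degree `e`
(`IsHomogeneous.totalDegree`). Let `G' = homogeneousComponent a G`,
`H' = homogeneousComponent b H`. Then `F = G' * H'`: the coefficients of degree `a + b` of `G * H`
and `G' * H'` are the same (`coeff_mul`: in a product of monomials of degrees `≤ a` and `≤ b` the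
degree `a + b` is reached only if both degrees are maximal), the other ones vanish. So
`f = deh G' * deh H'` and one of the factors, say `deh G'`, is a unit, so `deh G' = C c`, `c ≠ 0`,
and by `hom_deh` `G' = hom a (C c) = C c * X 2 ^ a`. So `X 2 ^ a ∣ F`; if `a ≥ 1` then
`F = X 2 * K` with `K` homogeneous of degree `e - 1` (`X 2 ^ (a - 1) * C c * H'`), `f = deh K` has
total degree `≤ e - 1` (`totalDegree_deh`), and `e ≥ 1`, a contradiction. So `a = 0`, `G` is a
constant (`MvPolynomial.totalDegree_eq_zero_iff_eq_C`), not zero, a unit.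
-/

namespace Pool.MP_70e04f_ag.Cre

open MvPolynomial

private lemma hom_C (e : ℕ) (c : ℂ) : hom e (C c) = C c * X 2 ^ e := by
  rw [← MvPolynomial.monomial_zero', hom_monomial]
  simp

private lemma deh_X2_pow (a : ℕ) : deh (X 2 ^ a) = 1 := by
  simp [deh]

private lemma coeff_top_mul {G H : R3} {a b : ℕ} (hG : G.totalDegree ≤ a)
    (hH : H.totalDegree ≤ b) (hF : (G * H).IsHomogeneous (a + b)) :
    G * H = homogeneousComponent a G * homogeneousComponent b H := by
  classical
  ext d
  by_cases hd : d.degree = a + b
  · rw [coeff_mul, coeff_mul]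
    refine Finset.sum_congr rfl ?_
    rintro ⟨x, y⟩ hxy
    rw [Finset.HasAntidiagonal.mem_antidiagonal] at hxy
    dsimp only at hxy ⊢
    have hdeg : x.degree + y.degree = a + b := by
      rw [← hd, ← hxy, map_add]
    rw [coeff_homogeneousComponent, coeff_homogeneousComponent]
    by_cases hx : coeff x G = 0
    · simp [hx]
    by_cases hy : coeff y H = 0
    · simp [hy]
    have h1 : x.degree ≤ a := by
      have := le_totalDegree (mem_support_iff.mpr hx)
      exact le_trans this hG
    have h2 : y.degree ≤ b := by
      have := le_totalDegree (mem_support_iff.mpr hy)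
      exact le_trans this hH
    have h3 : x.degree = a := by omega
    have h4 : y.degree = b := by omega
    rw [if_pos h3, if_pos h4]
  · rw [hF.coeff_eq_zero hd]
    exact (((homogeneousComponent_isHomogeneous a G).mul
      (homogeneousComponent_isHomogeneous b H)).coeff_eq_zero hd).symm

/-- The main step: if `deh` of the top component of `G` is a unit, then `G` is a unit. -/
private lemma key {e : ℕ} {f : R2} (hf0 : f ≠ 0) (he : f.totalDegree = e) {G H : R3}
    (hGH : hom e f = G * H)
    (hu : IsUnit (deh (homogeneousComponent G.totalDegree G))) : IsUnit G := by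
  have hF0 : hom e f ≠ 0 := by
    intro h
    apply hf0
    rw [← deh_hom e f, h, map_zero]
  have hhom : (hom e f).IsHomogeneous e := hom_isHomogeneous he.le
  have hG0 : G ≠ 0 := by
    rintro rfl
    exact hF0 (by rw [hGH, zero_mul])
  have hH0 : H ≠ 0 := by
    rintro rfl
    exact hF0 (by rw [hGH, mul_zero])
  have hab : G.totalDegree + H.totalDegree = e := by
    rw [← totalDegree_mul_of_isDomain hG0 hH0, ← hGH]
    exact hhom.totalDegree hF0
  have hF' : (G * H).IsHomogeneous (G.totalDegree + H.totalDegree) := by
    rw [hab, ← hGH]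
    exact hhom
  have h1 := coeff_top_mul le_rfl le_rfl hF'
  set a := G.totalDegree with ha
  set b := H.totalDegree with hb
  obtain ⟨c, hc, hcC⟩ := isUnit_iff_eq_C_of_isReduced.mp hu
  have hG' : homogeneousComponent a G = C c * X 2 ^ a := by
    rw [← hom_deh (homogeneousComponent_isHomogeneous a G), hcC, hom_C]
  have ha0 : a = 0 := by
    by_contra hne
    obtain ⟨k, hk⟩ := Nat.exists_eq_succ_of_ne_zero hne
    -- `f` is the dehomogenisation of a form of smaller degree
    have hf : f = deh (C c * X 2 ^ k * homogeneousComponent b H) := by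
      have h2 : deh (hom e f) = deh (homogeneousComponent a G) *
          deh (homogeneousComponent b H) := by
        rw [hGH, h1, map_mul]
      rw [deh_hom] at h2
      rw [h2, hG', map_mul, map_mul, map_mul, deh_X2_pow, deh_X2_pow]
    have h3 : (C c * X 2 ^ k * homogeneousComponent b H : R3).IsHomogeneous (0 + 1 * k + b) :=
      ((isHomogeneous_C _ c).mul ((isHomogeneous_X ℂ (2 : Fin 3)).pow k)).mul
        (homogeneousComponent_isHomogeneous b H)
    have h4 := totalDegree_deh h3
    rw [← hf, he] at h4
    omega
  have h5 : G = C (coeff 0 G) := totalDegree_eq_zero_iff_eq_C.mp (by rw [← ha, ha0])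
  rw [h5]
  refine IsUnit.map C ?_
  rw [isUnit_iff_ne_zero]
  intro h6
  rw [h6, map_zero] at h5
  exact hG0 h5

theorem hom_irreducible {e : ℕ} {f : R2} (hf : Irreducible f) (he : f.totalDegree = e) :
    Irreducible (hom e f) := by
  refine ⟨?_, ?_⟩
  · intro h
    apply hf.not_isUnit
    have := h.map deh
    rwa [deh_hom] at this
  · intro G H hGH
    have hf0 : f ≠ 0 := hf.ne_zero
    have hF0 : hom e f ≠ 0 := by
      intro h
      apply hf0
      rw [← deh_hom e f, h, map_zero]
    have hhom : (hom e f).IsHomogeneous e := hom_isHomogeneous he.le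
    have hG0 : G ≠ 0 := by
      rintro rfl
      exact hF0 (by rw [hGH, zero_mul])
    have hH0 : H ≠ 0 := by
      rintro rfl
      exact hF0 (by rw [hGH, mul_zero])
    have hab : G.totalDegree + H.totalDegree = e := by
      rw [← totalDegree_mul_of_isDomain hG0 hH0, ← hGH]
      exact hhom.totalDegree hF0
    have hF' : (G * H).IsHomogeneous (G.totalDegree + H.totalDegree) := by
      rw [hab, ← hGH]
      exact hhom
    have h1 := coeff_top_mul le_rfl le_rfl hF'
    have h2 : f = deh (homogeneousComponent G.totalDegree G) *
        deh (homogeneousComponent H.totalDegree H) := by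
      have h3 : deh (hom e f) = deh (homogeneousComponent G.totalDegree G) *
          deh (homogeneousComponent H.totalDegree H) := by
        rw [hGH, ← map_mul]
        exact congrArg deh h1
      rwa [deh_hom] at h3
    rcases hf.isUnit_or_isUnit h2 with h | h
    · exact Or.inl (key hf0 he hGH h)
    · exact Or.inr (key hf0 he (hGH.trans (mul_comm G H)) h)

theorem deh_irreducible {e : ℕ} {F : R3} (hF : Irreducible F) (he : F.IsHomogeneous e)
    (h2 : ¬ (X 2 : R3) ∣ F) : Irreducible (deh F) ∧ (deh F).totalDegree = e := by
  have hFe : hom e (deh F) = F := hom_deh he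
  have hf0 : deh F ≠ 0 := by
    intro h
    rw [h, map_zero] at hFe
    exact hF.ne_zero hFe.symm
  have hle : (deh F).totalDegree ≤ e := totalDegree_deh he
  have hte : (deh F).totalDegree = e := by
    by_contra hne
    obtain ⟨k, hk⟩ := Nat.exists_eq_add_of_lt (lt_of_le_of_ne hle hne)
    apply h2
    rw [← hFe]
    have h3 : hom e (deh F) = X 2 ^ (k + 1) * hom (deh F).totalDegree (deh F) := by
      have h4 := hom_add_deg (le_refl (deh F).totalDegree) (k + 1)
      rw [← h4]
      congr 1
      congr 1
    rw [h3, pow_succ', mul_assoc]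
    exact dvd_mul_right _ _
  refine ⟨⟨?_, ?_⟩, hte⟩
  · intro hu
    obtain ⟨c, hc, hcC⟩ := isUnit_iff_eq_C_of_isReduced.mp hu
    have he0 : e = 0 := by
      rw [← hte, hcC, totalDegree_C]
    apply hF.not_isUnit
    rw [← hFe, hcC, he0, hom_C, pow_zero, mul_one]
    exact hc.map C
  · intro g h hgh
    have hg0 : g ≠ 0 := by
      rintro rfl
      exact hf0 (by rw [hgh, zero_mul])
    have hh0 : h ≠ 0 := by
      rintro rfl
      exact hf0 (by rw [hgh, mul_zero])
    have hab : g.totalDegree + h.totalDegree = e := by
      rw [← totalDegree_mul_of_isDomain hg0 hh0, ← hgh, hte]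
    have h5 : F = hom g.totalDegree g * hom h.totalDegree h := by
      rw [← hom_mul le_rfl le_rfl, hab, ← hgh, hFe]
    rcases hF.isUnit_or_isUnit h5 with hu | hu
    · left
      have := hu.map deh
      rwa [deh_hom] at this
    · right
      have := hu.map deh
      rwa [deh_hom] at this

end Pool.MP_70e04f_ag.Cre
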