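import Pool.Agent.Lib_MP_70e04f_cre.Defs

/-!
# Homogenisation (piece CRHOM)

PAPER PROOF. Everything is linear, so it is checked on monomials (`hom_monomial`;
`MvPolynomial.induction_on'`, or `f = ∑ s ∈ f.support, monomial s (coeff s f)`,
`MvPolynomial.as_sum`; `MvPolynomial.le_totalDegree` bounds `s 0 + s 1` for `s ∈ f.support`).
`hom_deh`: a monomial of `F` of degree `e` is `X 0 ^ a * X 1 ^ b * X 2 ^ c` with `a + b + c = e`,
`deh` maps it to `X 0 ^ a * X 1 ^ b`, and `hom e` back. `hom_mul`: both sides are bilinear in `f`,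
`g`; for monomials `s`, `t` of degrees `≤ a`, `≤ b` it is
`(a + b) - (|s| + |t|) = (a - |s|) + (b - |t|)`. `hom_add_deg`: `(e + k) - |s| = (e - |s|) + k` for
`|s| ≤ e`. `eval_hom`: the third coordinate of `hat p` is `1`.
-/

namespace Pool.MP_70e04f_ag.Cre

open MvPolynomial

lemma homog_sum_le {e : ℕ} {f : R2} (hf : f.totalDegree ≤ e) {s : Fin 2 →₀ ℕ} (hs : s ∈ f.support) :
    s 0 + s 1 ≤ e := by
  have h1 := le_totalDegree hs
  rw [Finsupp.sum_fintype _ _ (fun _ => rfl), Fin.sum_univ_two] at h1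
  omega

lemma homog_mono2 (s : Fin 2 →₀ ℕ) (c : ℂ) : (monomial s c : R2) = C c * (X 0 ^ s 0 * X 1 ^ s 1) := by
  rw [monomial_eq, Finsupp.prod_fintype _ _ (fun _ => pow_zero _), Fin.prod_univ_two]

lemma homog_mono3 (s : Fin 3 →₀ ℕ) (c : ℂ) : (monomial s c : R3) = C c * (X 0 ^ s 0 * X 1 ^ s 1 * X 2 ^ s 2) := by
  rw [monomial_eq, Finsupp.prod_fintype _ _ (fun _ => pow_zero _), Fin.prod_univ_three]

/-- the exponents of the first two variables -/
noncomputable def homogT (s : Fin 3 →₀ ℕ) : Fin 2 →₀ ℕ := Finsupp.equivFunOnFinite.symm ![s 0, s 1]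

lemma homog_deh_monomial (s : Fin 3 →₀ ℕ) (c : ℂ) : deh (monomial s c) = monomial (homogT s) c := by
  rw [homog_mono3, homog_mono2]
  simp [deh, homogT]

lemma homog_deg3 {e : ℕ} {F : R3} (hF : F.IsHomogeneous e) {s : Fin 3 →₀ ℕ} (hs : s ∈ F.support) :
    s 0 + s 1 + s 2 = e := by
  have h1 := hF (mem_support_iff.1 hs)
  have h2 : s.degree = e := by
    rw [Finsupp.degree_eq_weight_one]
    exact h1
  rw [Finsupp.degree_eq_sum, Fin.sum_univ_three] at h2
  exact h2

theorem hom_isHomogeneous {e : ℕ} {f : R2} (hf : f.totalDegree ≤ e) :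
    (hom e f).IsHomogeneous e := by
  rw [f.as_sum, map_sum]
  refine IsHomogeneous.sum _ _ _ fun s hs => ?_
  have h1 := homog_sum_le hf hs
  rw [hom_monomial]
  have h2 : ((C (f.coeff s) : R3) * (X 0 ^ s 0 * X 1 ^ s 1 * X 2 ^ (e - (s 0 + s 1)))).IsHomogeneous
      (0 + (s 0 + s 1 + (e - (s 0 + s 1)))) :=
    (isHomogeneous_C _ _).mul (((isHomogeneous_X_pow _ _).mul (isHomogeneous_X_pow _ _)).mul
      (isHomogeneous_X_pow _ _))
  have h3 : 0 + (s 0 + s 1 + (e - (s 0 + s 1))) = e := by omega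
  rwa [h3] at h2

theorem deh_hom (e : ℕ) (f : R2) : deh (hom e f) = f := by
  induction f using MvPolynomial.induction_on' with
  | monomial s c =>
    rw [hom_monomial, homog_mono2]
    simp [deh]
  | add p q hp hq => rw [map_add, map_add, hp, hq]

theorem hom_deh {e : ℕ} {F : R3} (hF : F.IsHomogeneous e) : hom e (deh F) = F := by
  conv_lhs => rw [F.as_sum]
  conv_rhs => rw [F.as_sum]
  rw [map_sum, map_sum]
  refine Finset.sum_congr rfl fun s hs => ?_
  have h1 := homog_deg3 hF hs
  have h2 : e - (s 0 + s 1) = s 2 := by omega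
  have h3 : homogT s 0 = s 0 := rfl
  have h4 : homogT s 1 = s 1 := rfl
  rw [homog_deh_monomial, hom_monomial, homog_mono3, h3, h4, h2]

theorem totalDegree_deh {e : ℕ} {F : R3} (hF : F.IsHomogeneous e) : (deh F).totalDegree ≤ e := by
  rw [← MvPolynomial.mem_restrictTotalDegree]
  conv => arg 2; rw [F.as_sum]
  rw [map_sum]
  refine Submodule.sum_mem _ fun s hs => ?_
  have h1 := homog_deg3 hF hs
  rw [homog_deh_monomial, MvPolynomial.mem_restrictTotalDegree]
  refine (totalDegree_monomial_le _ _).trans ?_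
  rw [Finsupp.sum_fintype _ _ (fun _ => rfl), Fin.sum_univ_two]
  have h3 : homogT s 0 = s 0 := rfl
  have h4 : homogT s 1 = s 1 := rfl
  simp only [h3, h4, id]
  omega

theorem hom_mul {a b : ℕ} {f g : R2} (hf : f.totalDegree ≤ a) (hg : g.totalDegree ≤ b) :
    hom (a + b) (f * g) = hom a f * hom b g := by
  conv_lhs => rw [f.as_sum, g.as_sum]
  conv_rhs => rw [f.as_sum, g.as_sum]
  rw [map_sum, map_sum, Finset.sum_mul_sum, Finset.sum_mul_sum, map_sum]
  refine Finset.sum_congr rfl fun s hs => ?_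
  rw [map_sum]
  refine Finset.sum_congr rfl fun t ht => ?_
  have h1 := homog_sum_le hf hs
  have h2 := homog_sum_le hg ht
  rw [monomial_mul, hom_monomial, hom_monomial, hom_monomial]
  have h3 : a + b - ((s + t) 0 + (s + t) 1) = (a - (s 0 + s 1)) + (b - (t 0 + t 1)) := by
    simp only [Finsupp.add_apply]
    omega
  rw [h3, C_mul]
  simp only [Finsupp.add_apply, pow_add]
  ring

theorem hom_add_deg {e : ℕ} {f : R2} (hf : f.totalDegree ≤ e) (k : ℕ) :
    hom (e + k) f = X 2 ^ k * hom e f := by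
  conv_lhs => rw [f.as_sum]
  conv_rhs => rw [f.as_sum]
  rw [map_sum, map_sum, Finset.mul_sum]
  refine Finset.sum_congr rfl fun s hs => ?_
  have h1 := homog_sum_le hf hs
  rw [hom_monomial, hom_monomial]
  have h3 : e + k - (s 0 + s 1) = (e - (s 0 + s 1)) + k := by omega
  rw [h3, pow_add]
  ring

theorem eval_hom (e : ℕ) (f : R2) (p : Fin 2 → ℂ) :
    MvPolynomial.eval (hat p) (hom e f) = MvPolynomial.eval p f := by
  induction f using MvPolynomial.induction_on' with
  | monomial s c =>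
    rw [hom_monomial, homog_mono2]
    simp [hat]
  | add p q hp hq => rw [map_add, map_add, map_add, hp, hq]

theorem eval_deh (F : R3) (p : Fin 2 → ℂ) :
    MvPolynomial.eval p (deh F) = MvPolynomial.eval (hat p) F := by
  induction F using MvPolynomial.induction_on' with
  | monomial s c =>
    rw [homog_deh_monomial, homog_mono2, homog_mono3]
    simp [hat, homogT]
  | add p q hp hq => rw [map_add, map_add, map_add, hp, hq]

end Pool.MP_70e04f_ag.Cre
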