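import Pool.Agent.Lib_MP_70e04f_cre.Mi
import Pool.Agent.Lib_MP_70e04f_cre.Homog

/-!
# Homogenisation and multiplicities (piece CRHMI)

PAPER PROOF. `deh_mem` is `mem_pow_map` with `eval_deh`. `hom_mem`: it is enough to prove, by
induction on `j`, that for every `f ∈ mi p ^ j` there is `N0` with `hom N f ∈ mi (hat p) ^ j` for
all `N ≥ N0` and `f.totalDegree ≤ N0`: then, by `hom_add_deg`, `X 2 ^ k * hom e f` is in
`mi (hat p) ^ j` for some `k`, and `mem_pow_of_mul_mem` (the value of `X 2 ^ k` at `hat p` is `1`)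
gives the claim. Step `j → j + 1`: `mi p ^ (j + 1) = mi p ^ j * mi p`, `Submodule.mul_induction_on`:
sums are clear; for a product `f * g`, `f ∈ mi p ^ j`, `g ∈ mi p`, with `b = g.totalDegree` and `N0`
for `f` take `N0 + b`: `hom N (f * g) = hom (N - b) f * hom b g` (`hom_mul`), and
`hom b g ∈ mi (hat p)` by `eval_hom`.
-/

namespace Pool.MP_70e04f_ag.Cre

open MvPolynomial

theorem deh_mem {F : R3} {p : Fin 2 → ℂ} {j : ℕ} (h : F ∈ mi (hat p) ^ j) :
    deh F ∈ mi p ^ j :=
  mem_pow_map deh (fun F => eval_deh F p) h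

private lemma hom_mem_aux {p : Fin 2 → ℂ} (j : ℕ) : ∀ f : R2, f ∈ mi p ^ j →
    ∃ N0 : ℕ, f.totalDegree ≤ N0 ∧ ∀ N, N0 ≤ N → hom N f ∈ mi (hat p) ^ j := by
  induction j with
  | zero =>
    intro f _
    refine ⟨f.totalDegree, le_rfl, fun N _ => ?_⟩
    rw [pow_zero, Ideal.one_eq_top]
    exact Submodule.mem_top
  | succ j ih =>
    intro f hf
    rw [pow_succ] at hf
    refine Submodule.mul_induction_on hf ?_ ?_
    · intro a ha b hb
      obtain ⟨N0, h0, h1⟩ := ih a ha
      refine ⟨N0 + b.totalDegree, ?_, ?_⟩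
      · exact (totalDegree_mul a b).trans (Nat.add_le_add_right h0 _)
      · intro N hN
        obtain ⟨k, rfl⟩ := Nat.exists_eq_add_of_le hN
        have e1 : N0 + b.totalDegree + k = (N0 + k) + b.totalDegree := by omega
        rw [e1, hom_mul (h0.trans (Nat.le_add_right _ _)) le_rfl, pow_succ]
        refine Ideal.mul_mem_mul (h1 _ (Nat.le_add_right _ _)) ?_
        have hb' : MvPolynomial.eval p b = 0 := hb
        show hom b.totalDegree b ∈ mi (hat p)
        rw [RingHom.mem_ker, eval_hom, hb']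
    · intro x y hx hy
      obtain ⟨N0, h0, h1⟩ := hx
      obtain ⟨N1, h2, h3⟩ := hy
      refine ⟨max N0 N1, ?_, ?_⟩
      · exact (totalDegree_add x y).trans (max_le_max h0 h2)
      · intro N hN
        rw [map_add]
        exact Ideal.add_mem _ (h1 N ((le_max_left _ _).trans hN))
          (h3 N ((le_max_right _ _).trans hN))

theorem hom_mem {e : ℕ} {f : R2} (hf : f.totalDegree ≤ e) {p : Fin 2 → ℂ} {j : ℕ}
    (h : f ∈ mi p ^ j) : hom e f ∈ mi (hat p) ^ j := by
  obtain ⟨N0, _, h1⟩ := hom_mem_aux j f h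
  have h2 := h1 (e + N0) (Nat.le_add_left _ _)
  rw [hom_add_deg hf] at h2
  refine mem_pow_of_mul_mem ?_ h2
  simp [hat]

end Pool.MP_70e04f_ag.Cre
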