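import Pool.Agent.Lib_MP_70e04f_cre.HomMi
import Pool.Agent.Lib_MP_70e04f_cre.HomIrr

/-!
# The alternative in homogeneous coordinates (piece CRHS)

PAPER PROOF. Dimension: `deh` and `hom d` give inverse bijections between `V d m p` and
`W d m (hat p)` (`hom_isHomogeneous`, `deh_hom`, `hom_deh`, `totalDegree_deh`, `hom_mem`,
`deh_mem`; `mem_restrictTotalDegree`, `mem_homogeneousSubmodule`), so the two spaces have the same
dimension (`LinearEquiv.finrank_eq`, or `Submodule.map` with an injective restriction).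

The second alternative. `HS_of_S`: given `f`, `e`, `a` take `F = hom e f` (`hom_irreducible`,
`hom_isHomogeneous`); `F ∈ mi (hat p) ^ k ↔ f ∈ mi p ^ k` by `hom_mem`, `deh_mem`, `deh_hom`.
`S_of_HS`: given `F`, `e`, `a`; `X 2` does not divide `F`: otherwise, as `F` is irreducible,
`F = C c * X 2` (`c ≠ 0`), `e = 1` (`IsHomogeneous.inj_right`) and
`eval (hat (p i)) F = c ≠ 0`, so `F ∉ mi (hat (p i))` and `a i = 0` for all `i`, in contradiction to
`e ^ 2 - ∑ a i ^ 2 = -1`. So `f = deh F` is as required (`deh_irreducible`, `hom_deh`).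
-/

namespace Pool.MP_70e04f_ag.Cre

open MvPolynomial

theorem CRHS_mem_W {n d : ℕ} {m : Fin n → ℕ} {q : Fin n → Fin 3 → ℂ} {F : R3} :
    F ∈ W d m q ↔ F.IsHomogeneous d ∧ ∀ i, F ∈ mi (q i) ^ m i := by
  rw [W, Submodule.mem_inf, Submodule.mem_iInf, mem_homogeneousSubmodule]
  rfl

theorem CRHS_mem_V {n d : ℕ} {m : Fin n → ℕ} {p : Fin n → Fin 2 → ℂ} {f : R2} :
    f ∈ V d m p ↔ f.totalDegree ≤ d ∧ ∀ i, f ∈ mi (p i) ^ m i := by
  rw [V, Submodule.mem_inf, Submodule.mem_iInf, mem_restrictTotalDegree]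
  rfl

theorem CRHS_hom_mem_iff {e : ℕ} {f : R2} (hf : f.totalDegree ≤ e) {p : Fin 2 → ℂ} {j : ℕ} :
    hom e f ∈ mi (hat p) ^ j ↔ f ∈ mi p ^ j := by
  constructor
  · intro h
    have h1 := deh_mem h
    rwa [deh_hom] at h1
  · exact hom_mem hf

theorem CRHS_deh_mem_iff {e : ℕ} {F : R3} (hF : F.IsHomogeneous e) {p : Fin 2 → ℂ} {j : ℕ} :
    deh F ∈ mi p ^ j ↔ F ∈ mi (hat p) ^ j := by
  rw [← CRHS_hom_mem_iff (totalDegree_deh hF), hom_deh hF]

theorem finrank_W_hat {n : ℕ} (d : ℕ) (m : Fin n → ℕ) (p : Fin n → Fin 2 → ℂ) :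
    Module.finrank ℂ ↥(W d m (fun i => hat (p i))) = Module.finrank ℂ ↥(V d m p) := by
  have hinj : Function.Injective (hom d) := Function.LeftInverse.injective (deh_hom d)
  have e1 : W d m (fun i => hat (p i)) = (V d m p).map (hom d) := by
    ext G
    rw [Submodule.mem_map, CRHS_mem_W]
    constructor
    · rintro ⟨h1, h2⟩
      exact ⟨deh G, CRHS_mem_V.mpr ⟨totalDegree_deh h1, fun i => deh_mem (h2 i)⟩, hom_deh h1⟩
    · rintro ⟨f, hf, rfl⟩
      obtain ⟨h1, h2⟩ := CRHS_mem_V.mp hf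
      exact ⟨hom_isHomogeneous h1, fun i => hom_mem h1 (h2 i)⟩
  rw [e1]
  exact (LinearEquiv.finrank_eq (Submodule.equivMapOfInjective (hom d) hinj (V d m p))).symm

theorem HS_of_S {n d : ℕ} {m : Fin n → ℕ} {p : Fin n → Fin 2 → ℂ} (h : S d m p) :
    HS d m (fun i => hat (p i)) := by
  rcases h with h | ⟨f, e, a, hf, he, ha, hneg⟩
  · left
    rw [finrank_W_hat]
    exact h
  · right
    refine ⟨hom e f, e, a, hom_irreducible hf he, hom_isHomogeneous he.le, fun i => ?_, hneg⟩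
    rw [CRHS_hom_mem_iff he.le, CRHS_hom_mem_iff he.le]
    exact ha i

theorem CRHS_not_dvd {n d : ℕ} {m a : Fin n → ℕ} {p : Fin n → Fin 2 → ℂ} {F : R3} {e : ℕ}
    (hF : Irreducible F) (he : F.IsHomogeneous e)
    (ha : ∀ i, F ∈ mi (hat (p i)) ^ a i) (hneg : Neg d m e a) : ¬ (X 2 : R3) ∣ F := by
  rintro ⟨K, hK⟩
  have h2 : ¬ IsUnit (X 2 : R3) := (MvPolynomial.X_prime (σ := Fin 3) (R := ℂ) (i := 2)).not_isUnit
  have hKu : IsUnit K := (hF.isUnit_or_isUnit hK).resolve_left h2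
  obtain ⟨c, hc, rfl⟩ := MvPolynomial.isUnit_iff_eq_C_of_isReduced.mp hKu
  have hc0 : c ≠ 0 := hc.ne_zero
  have h1 : F.IsHomogeneous 1 := by
    rw [hK, mul_comm]
    exact isHomogeneous_C_mul_X c 2
  have he1 : e = 1 := IsHomogeneous.inj_right he h1 hF.ne_zero
  have ha0 : ∀ i, a i = 0 := by
    intro i
    by_contra hai
    have h3 : F ∈ mi (hat (p i)) := by
      have h4 := Ideal.pow_le_pow_right (I := mi (hat (p i))) (Nat.one_le_iff_ne_zero.mpr hai)
        (ha i)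
      rwa [pow_one] at h4
    have h5 : MvPolynomial.eval (hat (p i)) F = 0 := h3
    rw [hK, map_mul, eval_X, eval_C] at h5
    have h6 : hat (p i) 2 = 1 := rfl
    rw [h6, one_mul] at h5
    exact hc0 h5
  have h7 := hneg.1
  rw [he1] at h7
  have h8 : ∑ i, (a i : ℤ) ^ 2 = 0 := Finset.sum_eq_zero fun i _ => by rw [ha0 i]; norm_num
  rw [h8] at h7
  norm_num at h7

theorem S_of_HS {n d : ℕ} {m : Fin n → ℕ} {p : Fin n → Fin 2 → ℂ}
    (h : HS d m (fun i => hat (p i))) : S d m p := by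
  rcases h with h | ⟨F, e, a, hF, he, ha, hneg⟩
  · left
    rw [finrank_W_hat] at h
    exact h
  · right
    obtain ⟨h1, h2⟩ := deh_irreducible hF he (CRHS_not_dvd hF he (fun i => (ha i).1) hneg)
    refine ⟨deh F, e, a, h1, h2, fun i => ?_, hneg⟩
    rw [CRHS_deh_mem_iff he, CRHS_deh_mem_iff he]
    exact ha i

end Pool.MP_70e04f_ag.Cre
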