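import Pool.Agent.Lib_MP_70e04f_cre.Defs

/-!
# Powers of the ideal of a point (piece CRMI)

PAPER PROOF. `mi q` is maximal (`RingHom.ker_isMaximal_of_surjective`, `eval q` is surjective onto
`ℂ`), so its powers are primary: `Ideal.isPrimary_of_isMaximal_radical`, `Ideal.radical_pow`
(`j = 0` is trivial). `mem_pow_map`: `mi q ≤ (mi q').comap φ`, `Ideal.map_pow`,
`Ideal.map_le_iff_le_comap`, `Ideal.pow_right_mono`. `mem_mi_smul`: apply `mem_pow_map` to the
substitution `X i ↦ C c⁻¹ * X i`, which multiplies a form of degree `e` by `c⁻¹ ^ e`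
(compare values or monomials; `MvPolynomial.funext`, `IsHomogeneous.eval₂`, or
`MvPolynomial.induction`), and multiply with the constant `c ^ e`.

`mem_mi_single_iff`: (right to left) every monomial `X ^ s` of `F` has `∑ l ≠ j, s l = e - s j ≥ a`
factors `X l`, `l ≠ j`, in `mi (Pi.single j 1)`. (left to right) The substitution `φ` with
`X j ↦ 1`, `X l ↦ X l` (`l ≠ j`) maps `mi (Pi.single j 1)` to `mi 0 = idealOfVars`; by
`MvPolynomial.mem_pow_idealOfVars_iff'` all coefficients of `φ F` of degree `< a` vanish. The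
monomial `X ^ s` of `F` goes to the monomial with exponent `t = s` except `t j = 0`, and different
monomials of `F` go to different monomials because `s j = e - ∑ l ≠ j, s l`. So the coefficient of
`φ F` at `t` is the coefficient of `F` at `s`.
-/

namespace Pool.MP_70e04f_ag.Cre

open MvPolynomial

/-- Powers of the ideal of a point are primary. -/
theorem mem_pow_of_mul_mem {k : ℕ} {q : Fin k → ℂ} {A F : MvPolynomial (Fin k) ℂ} {j : ℕ}
    (hA : MvPolynomial.eval q A ≠ 0) (h : A * F ∈ mi q ^ j) : F ∈ mi q ^ j := by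
  set B : MvPolynomial (Fin k) ℂ := C (MvPolynomial.eval q A)⁻¹ with hB
  have h1 : 1 - B * A ∈ mi q := by
    rw [RingHom.mem_ker, map_sub, map_mul, map_one, hB, MvPolynomial.eval_C, inv_mul_cancel₀ hA, sub_self]
  have h2 : (1 - B * A) ^ j ∈ mi q ^ j := Ideal.pow_mem_pow h1 j
  obtain ⟨E, hE⟩ : B * A ∣ 1 - (1 - B * A) ^ j := by
    have h3 := sub_dvd_pow_sub_pow (1 : MvPolynomial (Fin k) ℂ) (1 - B * A) j
    rwa [one_pow, sub_sub_cancel] at h3
  have h4 : F = (1 - B * A) ^ j * F + (B * E) * (A * F) := by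
    have h5 : F = (1 - B * A) ^ j * F + (1 - (1 - B * A) ^ j) * F := by ring
    rw [hE] at h5
    calc F = (1 - B * A) ^ j * F + (B * A * E) * F := h5
      _ = _ := by ring
  rw [h4]
  exact Ideal.add_mem _ (Ideal.mul_mem_right _ _ h2) (Ideal.mul_mem_left _ _ h)

/-- Functoriality of the multiplicity. -/
theorem mem_pow_map {k l : ℕ} {q : Fin k → ℂ} {q' : Fin l → ℂ}
    (φ : MvPolynomial (Fin k) ℂ →ₐ[ℂ] MvPolynomial (Fin l) ℂ)
    (h : ∀ F, MvPolynomial.eval q' (φ F) = MvPolynomial.eval q F) {F : MvPolynomial (Fin k) ℂ}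
    {j : ℕ} (hF : F ∈ mi q ^ j) : φ F ∈ mi q' ^ j := by
  have h1 : Ideal.map φ.toRingHom (mi q) ≤ mi q' := by
    rw [Ideal.map_le_iff_le_comap]
    intro G hG
    rw [Ideal.mem_comap, RingHom.mem_ker]
    have := h G
    rw [RingHom.mem_ker.1 hG] at this
    exact this
  have h2 : φ.toRingHom F ∈ Ideal.map φ.toRingHom (mi q ^ j) := Ideal.mem_map_of_mem _ hF
  rw [Ideal.map_pow] at h2
  exact Ideal.pow_right_mono h1 j h2

lemma mi_deg {F : R3} {e : ℕ} (hF : F.IsHomogeneous e) {s : Fin 3 →₀ ℕ} (hs : s ∈ F.support) :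
    s.degree = e := by
  have h1 := hF (mem_support_iff.1 hs)
  rw [Finsupp.degree_eq_weight_one]
  exact h1

/-- scaling the variables multiplies a form by a power -/
lemma mi_scale (c : ℂ) {F : R3} {e : ℕ} (hF : F.IsHomogeneous e) :
    aeval (fun i => C c * X i : Fin 3 → R3) F = C (c ^ e) * F := by
  conv_lhs => rw [F.as_sum]
  conv_rhs => rw [F.as_sum]
  rw [map_sum, Finset.mul_sum]
  refine Finset.sum_congr rfl fun s hs => ?_
  have h1 : s.degree = e := mi_deg hF hs
  rw [aeval_monomial, MvPolynomial.algebraMap_eq, monomial_eq, Finsupp.prod_fintype _ _ (fun i => pow_zero _),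
    Finsupp.prod_fintype _ _ (fun i => pow_zero _)]
  simp only [mul_pow]
  rw [Finset.prod_mul_distrib, Finset.prod_pow_eq_pow_sum, ← h1, Finsupp.degree_eq_sum, map_pow]
  ring

/-- The multiplicity does not depend on the homogeneous coordinates. -/
theorem mem_mi_smul {q : Fin 3 → ℂ} {c : ℂ} (hc : c ≠ 0) {F : R3} {e j : ℕ}
    (hF : F.IsHomogeneous e) (h : F ∈ mi q ^ j) : F ∈ mi (c • q) ^ j := by
  have h1 : aeval (fun i => C c⁻¹ * X i : Fin 3 → R3) F ∈ mi (c • q) ^ j := by
    refine mem_pow_map _ (fun G => ?_) h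
    rw [← MvPolynomial.coe_aeval_eq_eval, ← MvPolynomial.coe_aeval_eq_eval, RingHom.coe_coe, RingHom.coe_coe,
      ← AlgHom.comp_apply, MvPolynomial.comp_aeval]
    have h2 : (fun i => (aeval (c • q)) (C c⁻¹ * X i : R3)) = q := by
      funext i
      rw [map_mul, aeval_C, aeval_X]
      simp [hc]
    rw [h2]
  rw [mi_scale c⁻¹ hF] at h1
  have h2 : F = C (c ^ e) * (C (c⁻¹ ^ e) * F) := by
    rw [← mul_assoc, ← C_mul, ← mul_pow, mul_inv_cancel₀ hc, one_pow, C_1, one_mul]
  rw [h2]
  exact Ideal.mul_mem_left _ _ h1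

/-- setting a variable equal to one -/
lemma mi_dehom (j : Fin 3) (s : Fin 3 →₀ ℕ) (c : ℂ) :
    aeval (fun l => if l = j then 1 else X l : Fin 3 → R3) (monomial s c) = monomial (s.erase j) c := by
  rw [aeval_monomial, MvPolynomial.algebraMap_eq, monomial_eq, Finsupp.prod_fintype _ _ (fun i => pow_zero _),
    Finsupp.prod_fintype _ _ (fun i => pow_zero _)]
  congr 1
  refine Finset.prod_congr rfl fun i _ => ?_
  by_cases hi : i = j
  · rw [if_pos hi, one_pow, hi, Finsupp.erase_same, pow_zero]
  · rw [if_neg hi, Finsupp.erase_ne hi]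

lemma mi_degree_erase (j : Fin 3) (s : Fin 3 →₀ ℕ) : (s.erase j).degree + s j = s.degree := by
  rw [Finsupp.degree_eq_sum, Finsupp.degree_eq_sum]
  rw [← Finset.add_sum_erase Finset.univ _ (Finset.mem_univ j), ← Finset.add_sum_erase Finset.univ (fun i => s i)
    (Finset.mem_univ j), Finsupp.erase_same, zero_add, add_comm]
  congr 1
  refine Finset.sum_congr rfl fun i hi => ?_
  rw [Finsupp.erase_ne (Finset.ne_of_mem_erase hi)]

lemma mi_zero_le : mi (0 : Fin 3 → ℂ) ≤ idealOfVars (Fin 3) ℂ := by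
  intro g hg
  rw [RingHom.mem_ker] at hg
  have h1 := (mem_pow_idealOfVars_iff' (σ := Fin 3) (R := ℂ) 1 g).2 (fun x hx => ?_)
  · rwa [pow_one] at h1
  · have h2 : x = 0 := by
      have : x.degree = 0 := by omega
      exact (Finsupp.degree_eq_zero_iff x).1 this
    rw [h2, ← MvPolynomial.constantCoeff_eq, ← MvPolynomial.eval_zero]
    exact hg

/-- The multiplicity at a coordinate point. -/
theorem mem_mi_single_iff {F : R3} {e : ℕ} (hF : F.IsHomogeneous e) (j : Fin 3) (a : ℕ) :
    F ∈ mi (Pi.single j 1) ^ a ↔ ∀ s ∈ F.support, s j + a ≤ e := by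
  classical
  constructor
  · intro h s hs
    by_contra hlt
    push Not at hlt
    have h1 : aeval (fun l => if l = j then 1 else X l : Fin 3 → R3) F ∈ mi (0 : Fin 3 → ℂ) ^ a := by
      refine mem_pow_map _ (fun G => ?_) h
      rw [← MvPolynomial.coe_aeval_eq_eval, ← MvPolynomial.coe_aeval_eq_eval, RingHom.coe_coe, RingHom.coe_coe,
        ← AlgHom.comp_apply, MvPolynomial.comp_aeval]
      have h2 : (fun i => (aeval (0 : Fin 3 → ℂ)) (if i = j then 1 else X i : R3)) = Pi.single j 1 := by
        funext i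
        by_cases hi : i = j
        · subst hi
          simp
        · rw [if_neg hi, aeval_X, Pi.single_eq_of_ne hi]
          rfl
      rw [h2]
    have h3 := Ideal.pow_right_mono mi_zero_le a h1
    rw [mem_pow_idealOfVars_iff'] at h3
    have hdeg : s.degree = e := mi_deg hF hs
    have h4 := mi_degree_erase j s
    have h5 := h3 (s.erase j) (by omega)
    have h6 : (aeval (fun l => if l = j then 1 else X l : Fin 3 → R3) F).coeff (s.erase j) = F.coeff s := by
      conv_lhs => rw [F.as_sum]
      rw [map_sum, coeff_sum, Finset.sum_eq_single s]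
      · rw [mi_dehom, coeff_monomial, if_pos rfl]
      · intro u hu hus
        rw [mi_dehom, coeff_monomial, if_neg]
        intro he
        apply hus
        have hdu : u.degree = e := mi_deg hF hu
        have h7 := mi_degree_erase j u
        rw [he] at h7
        ext i
        by_cases hi : i = j
        · rw [hi]
          omega
        · have := DFunLike.congr_fun he i
          rwa [Finsupp.erase_ne hi, Finsupp.erase_ne hi] at this
      · intro hs'
        exact absurd hs hs'
    rw [h5] at h6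
    exact (mem_support_iff.1 hs) h6.symm
  · intro h
    rw [F.as_sum]
    refine Ideal.sum_mem _ fun s hs => ?_
    have h1 := h s hs
    have hdeg : s.degree = e := mi_deg hF hs
    have h4 := mi_degree_erase j s
    have h2 : (s.erase j).degree = ∑ l ∈ Finset.univ.erase j, s l := by
      rw [Finsupp.degree_eq_sum, ← Finset.add_sum_erase Finset.univ _ (Finset.mem_univ j), Finsupp.erase_same, zero_add]
      refine Finset.sum_congr rfl fun i hi => ?_
      rw [Finsupp.erase_ne (Finset.ne_of_mem_erase hi)]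
    have h3 : ∏ l ∈ Finset.univ.erase j, (X l : R3) ^ s l ∈ mi (Pi.single j 1) ^ (∑ l ∈ Finset.univ.erase j, s l) := by
      rw [← Finset.prod_pow_eq_pow_sum]
      refine Ideal.prod_mem_prod fun l hl => Ideal.pow_mem_pow ?_ _
      rw [RingHom.mem_ker, eval_X, Pi.single_eq_of_ne (Finset.ne_of_mem_erase hl)]
    have h5 : a ≤ ∑ l ∈ Finset.univ.erase j, s l := by omega
    have h6 := Ideal.pow_le_pow_right h5 h3
    rw [monomial_eq, Finsupp.prod_fintype _ _ (fun i => pow_zero _),
      ← Finset.mul_prod_erase Finset.univ _ (Finset.mem_univ j), ← mul_assoc]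
    exact Ideal.mul_mem_left _ _ h6

end Pool.MP_70e04f_ag.Cre
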