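import Pool.Agent.Lib_MP_70e04f_cre.Mi

/-!
# Forms and the standard quadratic transformation (piece CRREV)

PAPER PROOF. All statements about `rev` are checked on monomials (`rev_monomial`; write
`F = ∑ s ∈ F.support, monomial s (coeff s F)`). `coeff_rev`: `s ↦ ν - s` is an involution of the
`s ≤ ν`, so only the monomial `ν - t` of `F` contributes to the coefficient `t`, `t ≤ ν`; and
all exponents of `rev ν F` are `≤ ν`. `sub_mul`: for a monomial `s ≤ ν` of degree `d`,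
`sub (X ^ s) = X 0 ^ (s 1 + s 2) * X 1 ^ (s 0 + s 2) * X 2 ^ (s 0 + s 1)` and
`s 1 + s 2 = d - s 0`, so both sides are the monomial with exponents `d - s j + ν j`.

`rev_mem` (for `x` with no zero coordinate and `F ∈ mi (sg x) ^ k`): `sub F ∈ mi x ^ k` by
`mem_pow_map` and `eval_sub`, so `(X 0 * X 1 * X 2) ^ d * rev ν F = sub F * monomial ν 1` is in
`mi x ^ k`, and `mem_pow_of_mul_mem` gives `rev ν F ∈ mi x ^ k`.
`rev_mem'` (for `F ∈ mi x ^ k`): `sg (sg x) = (x 0 * x 1 * x 2) • x`, so by `mem_mi_smul`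
`F ∈ mi (sg (sg x)) ^ k`, and `rev_mem` for `sg x` (which has no zero coordinate) gives
`rev ν F ∈ mi (sg x) ^ k`.
-/

namespace Pool.MP_70e04f_ag.Cre

open MvPolynomial

private theorem rev_eq_sum (ν : Fin 3 →₀ ℕ) (F : R3) :
    rev ν F = ∑ s ∈ F.support, monomial (ν - s) (coeff s F) := by
  conv_lhs => rw [F.as_sum]
  rw [map_sum]
  exact Finset.sum_congr rfl fun s _ => rev_monomial ν s _

theorem coeff_rev {ν : Fin 3 →₀ ℕ} {F : R3} (hν : ∀ s ∈ F.support, s ≤ ν) (t : Fin 3 →₀ ℕ)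
    (ht : t ≤ ν) : coeff t (rev ν F) = coeff (ν - t) F := by
  classical
  rw [rev_eq_sum, coeff_sum]
  simp only [coeff_monomial]
  have key : ∀ s ∈ F.support, (if ν - s = t then coeff s F else 0) =
      if s = ν - t then coeff s F else 0 := by
    intro s hs
    have hsν := hν s hs
    refine if_congr ⟨fun h => ?_, fun h => ?_⟩ rfl rfl
    · rw [← h, tsub_tsub_cancel_of_le hsν]
    · rw [h, tsub_tsub_cancel_of_le ht]
  rw [Finset.sum_congr rfl key, Finset.sum_ite_eq']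
  split_ifs with h
  · rfl
  · exact (notMem_support_iff.mp h).symm

theorem support_rev_le {ν : Fin 3 →₀ ℕ} {F : R3} : ∀ s ∈ (rev ν F).support, s ≤ ν := by
  classical
  intro s hs
  rw [rev_eq_sum] at hs
  obtain ⟨t, -, ht⟩ := Finset.mem_biUnion.mp (support_sum hs)
  have := support_monomial_subset ht
  rw [Finset.mem_singleton] at this
  rw [this]
  exact tsub_le_self

theorem rev_rev {ν : Fin 3 →₀ ℕ} {F : R3} (hν : ∀ s ∈ F.support, s ≤ ν) :
    rev ν (rev ν F) = F := by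
  ext t
  by_cases ht : t ≤ ν
  · rw [coeff_rev support_rev_le t ht, coeff_rev hν _ tsub_le_self,
      tsub_tsub_cancel_of_le ht]
  · rw [notMem_support_iff.mp fun h => ht (support_rev_le t h),
      notMem_support_iff.mp fun h => ht (hν t h)]

private theorem deg3 (s : Fin 3 →₀ ℕ) : s.degree = s 0 + s 1 + s 2 := by
  rw [Finsupp.degree_eq_sum, Fin.sum_univ_three]

private theorem deg_of_mem {d : ℕ} {F : R3} (hF : F.IsHomogeneous d) {s : Fin 3 →₀ ℕ}
    (hs : s ∈ F.support) : s 0 + s 1 + s 2 = d := by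
  rw [← deg3]
  by_contra h
  exact mem_support_iff.mp hs (hF.coeff_eq_zero h)

theorem rev_isHomogeneous {ν : Fin 3 →₀ ℕ} {d d' : ℕ} (h : d + d' = ν 0 + ν 1 + ν 2) {F : R3}
    (hF : F.IsHomogeneous d) (hν : ∀ s ∈ F.support, s ≤ ν) : (rev ν F).IsHomogeneous d' := by
  rw [rev_eq_sum]
  refine IsHomogeneous.sum _ _ _ fun s hs => isHomogeneous_monomial _ ?_
  have h1 := deg_of_mem hF hs
  have h2 := hν s hs
  have h20 := h2 0
  have h21 := h2 1
  have h22 := h2 2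
  rw [deg3]
  simp only [Finsupp.tsub_apply]
  omega

theorem eval_sub (F : R3) (x : Fin 3 → ℂ) :
    MvPolynomial.eval x (sub F) = MvPolynomial.eval (sg x) F := by
  rw [sub, ← coe_aeval_eq_eval, ← coe_aeval_eq_eval]
  change (aeval x) ((aeval ![X 1 * X 2, X 0 * X 2, X 0 * X 1]) F) = _
  rw [← AlgHom.comp_apply, comp_aeval]
  change _ = aeval (sg x) F
  congr 2
  funext i
  fin_cases i <;> simp [sg]

private theorem mon3 (s : Fin 3 →₀ ℕ) (c : ℂ) : (monomial s c : R3) =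
    C c * (X 0 ^ s 0 * X 1 ^ s 1 * X 2 ^ s 2) := by
  rw [monomial_eq, Finsupp.prod_fintype _ _ (fun i => pow_zero _), Fin.prod_univ_three]

theorem sub_mul {ν : Fin 3 →₀ ℕ} {d : ℕ} {F : R3} (hF : F.IsHomogeneous d)
    (hν : ∀ s ∈ F.support, s ≤ ν) :
    sub F * monomial ν 1 = (X 0 * X 1 * X 2) ^ d * rev ν F := by
  rw [rev_eq_sum]
  conv_lhs => rw [F.as_sum]
  rw [map_sum, Finset.sum_mul, Finset.mul_sum]
  refine Finset.sum_congr rfl fun s hs => ?_
  have h1 := deg_of_mem hF hs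
  have h2 := hν s hs
  have h20 := h2 0
  have h21 := h2 1
  have h22 := h2 2
  rw [mon3, mon3, mon3, map_mul, map_mul, map_mul, map_pow, map_pow, map_pow]
  have hC : sub (C (coeff s F)) = C (coeff s F) := by
    rw [sub]; exact aeval_C _ _
  have hX0 : sub (X 0) = X 1 * X 2 := by rw [sub, aeval_X]; rfl
  have hX1 : sub (X 1) = X 0 * X 2 := by rw [sub, aeval_X]; rfl
  have hX2 : sub (X 2) = X 0 * X 1 := by rw [sub, aeval_X]; rfl
  rw [hC, hX0, hX1, hX2]
  simp only [Finsupp.tsub_apply, map_one, one_mul]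
  obtain ⟨a, ha⟩ := Nat.exists_eq_add_of_le h20
  obtain ⟨b, hb⟩ := Nat.exists_eq_add_of_le h21
  obtain ⟨c, hc⟩ := Nat.exists_eq_add_of_le h22
  rw [ha, hb, hc, Nat.add_sub_cancel_left, Nat.add_sub_cancel_left, Nat.add_sub_cancel_left,
    ← h1]
  ring

theorem rev_mem {ν : Fin 3 →₀ ℕ} {d : ℕ} {F : R3} (hF : F.IsHomogeneous d)
    (hν : ∀ s ∈ F.support, s ≤ ν) {x : Fin 3 → ℂ} (hx : ∀ c, x c ≠ 0) {k : ℕ}
    (h : F ∈ mi (sg x) ^ k) : rev ν F ∈ mi x ^ k := by
  have h1 : sub F ∈ mi x ^ k := mem_pow_map sub (fun G => eval_sub G x) h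
  refine mem_pow_of_mul_mem (A := (X 0 * X 1 * X 2) ^ d) ?_ ?_
  · simp only [map_pow, map_mul, eval_X]
    exact pow_ne_zero _ (mul_ne_zero (mul_ne_zero (hx 0) (hx 1)) (hx 2))
  · rw [← sub_mul hF hν]
    exact Ideal.mul_mem_right _ _ h1

theorem rev_mem' {ν : Fin 3 →₀ ℕ} {d : ℕ} {F : R3} (hF : F.IsHomogeneous d)
    (hν : ∀ s ∈ F.support, s ≤ ν) {x : Fin 3 → ℂ} (hx : ∀ c, x c ≠ 0) {k : ℕ}
    (h : F ∈ mi x ^ k) : rev ν F ∈ mi (sg x) ^ k := by
  have hs : sg (sg x) = (x 0 * x 1 * x 2) • x := by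
    funext i
    fin_cases i <;> simp [sg] <;> ring
  refine rev_mem hF hν (x := sg x) ?_ ?_
  · intro c
    fin_cases c <;> simp [sg, hx]
  · rw [hs]
    exact mem_mi_smul (mul_ne_zero (mul_ne_zero (hx 0) (hx 1)) (hx 2)) hF h

end Pool.MP_70e04f_ag.Cre
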