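import Pool.Agent.Lib_MP_70e04f_cre.Rev

/-!
# The quadratic transformation of an irreducible form (piece CRRI)

PAPER PROOF. Let `G` be irreducible of degree `d`, not divisible by a variable, all exponents
`≤ ν`, and for each `j` some monomial of `G` has exponent `ν j` of `X j`. Let `F = rev ν G`.

(1) No variable `X j` divides `F`: take `s ∈ G.support` with `s j = ν j`; then `ν - s` is in the
support of `F` (`coeff_rev`, `ν - (ν - s) = s`) and its exponent at `j` is `0`
(`MvPolynomial.X_dvd_iff_modMonomial_eq_zero`, or: `X j ∣ F` means that all exponents at `j` are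
positive).

(2) `F` is not zero (`rev_rev`) and not a unit: if `F = C c` then `G = rev ν F = monomial ν c`
(`rev_rev`), a monomial; as no variable divides `G`, `ν = 0` and `G = C c`, a unit, contradiction.

(3) Let `F = A * B`, `F` is homogeneous of degree `d'`. By `sub_mul` for `F` (and `rev_rev`)
`sub A * sub B * monomial ν 1 = (X 0 * X 1 * X 2) ^ d' * G`. `G` is prime
(`Irreducible.prime`, `MvPolynomial` over a field is a UFD) and does not divide the monomial
(`G` would be a divisor of a monomial, so a monomial, see (4), so a constant by the assumption on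
the variables), so `G ∣ sub A` or `G ∣ sub B`, say `sub A = G * K`. Cancel `G`:
`K * sub B * monomial ν 1 = (X 0 * X 1 * X 2) ^ d'` is a monomial, so by (4) `sub B` is a monomial
`monomial t c`, `c ≠ 0`.

(4) A divisor `B` of a monomial `monomial μ c`, `c ≠ 0`, is a monomial: induction on the degree of
`μ`: if `K * B = monomial μ c` and `μ j > 0` then `X j` (prime, `MvPolynomial.prime_X`) divides `K`
or `B`; cancel it. If `μ = 0` then `B` is a unit, a constant.

(5) `B` is a monomial: `sub` maps the monomial `s` to the monomial with exponents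
`(s 1 + s 2, s 0 + s 2, s 0 + s 1)`, this map of exponents is injective, so the coefficients of
`sub B` are those of `B`, and if `sub B` has only one monomial then `B` too.

(6) `B = monomial b c` and `B ∣ F`, so `b = 0` by (1), and `B = C c` is a unit.
-/

namespace Pool.MP_70e04f_ag.Cre

open MvPolynomial

/-- A divisor of a monomial is a monomial. -/
theorem eq_monomial_of_mul_eq {K B : R3} {μ : Fin 3 →₀ ℕ} {c : ℂ} (hc : c ≠ 0)
    (h : K * B = monomial μ c) : ∃ b : Fin 3 →₀ ℕ, ∃ u : ℂ, u ≠ 0 ∧ B = monomial b u := by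
  have h1 : B ∣ monomial μ c := ⟨K, by rw [← h, mul_comm]⟩
  rw [dvd_monomial_iff_exists hc] at h1
  obtain ⟨b, u, -, hu, hB⟩ := h1
  refine ⟨b, u, ?_, hB⟩
  rintro rfl
  exact hc (zero_dvd_iff.1 hu)

namespace RevIrr

/-- The exponents of the transform of a monomial. -/
noncomputable def ph (s : Fin 3 →₀ ℕ) : Fin 3 →₀ ℕ :=
  Finsupp.single 0 (s 1 + s 2) + Finsupp.single 1 (s 0 + s 2) + Finsupp.single 2 (s 0 + s 1)

theorem ph_apply (s : Fin 3 →₀ ℕ) :
    ph s 0 = s 1 + s 2 ∧ ph s 1 = s 0 + s 2 ∧ ph s 2 = s 0 + s 1 := by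
  refine ⟨?_, ?_, ?_⟩ <;> simp [ph]

theorem ph_inj {s t : Fin 3 →₀ ℕ} (h : ph s = ph t) : s = t := by
  obtain ⟨a1, a2, a3⟩ := ph_apply s
  obtain ⟨b1, b2, b3⟩ := ph_apply t
  rw [h] at a1 a2 a3
  ext j
  fin_cases j <;> simp only [Fin.zero_eta, Fin.mk_one, Fin.reduceFinMk] <;> omega

theorem sub_monomial (s : Fin 3 →₀ ℕ) (c : ℂ) :
    sub (monomial s c) = monomial (ph s) c := by
  unfold sub
  rw [aeval_monomial, Finsupp.prod_fintype _ _ (fun i => pow_zero _)]
  simp only [Fin.prod_univ_three, Matrix.cons_val_zero, Matrix.cons_val_one, Matrix.cons_val_two,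
    Matrix.head_cons, Matrix.tail_cons, algebraMap_eq]
  have h1 : (monomial (ph s) c : R3) = C c * (X 0 ^ (s 1 + s 2) * X 1 ^ (s 0 + s 2) *
      X 2 ^ (s 0 + s 1)) := by
    simp only [X_pow_eq_monomial, monomial_mul, C_mul_monomial, mul_one]
    rfl
  rw [h1]
  ring

theorem coeff_sub (B : R3) (t : Fin 3 →₀ ℕ) : coeff (ph t) (sub B) = coeff t B := by
  classical
  induction B using MvPolynomial.induction_on' with
  | monomial u a =>
    rw [sub_monomial, coeff_monomial, coeff_monomial]
    by_cases h : u = t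
    · rw [if_pos h, if_pos (by rw [h])]
    · rw [if_neg h, if_neg (fun h' => h (ph_inj h'))]
  | add p q hp hq => rw [map_add, coeff_add, coeff_add, hp, hq]

theorem monomial_of_sub {B : R3} {t : Fin 3 →₀ ℕ} {c : ℂ} (hc : c ≠ 0)
    (h : sub B = monomial t c) : ∃ b : Fin 3 →₀ ℕ, ∃ u : ℂ, u ≠ 0 ∧ B = monomial b u := by
  classical
  have hB : B ≠ 0 := by
    rintro rfl
    rw [map_zero] at h
    exact hc (monomial_eq_zero.1 h.symm)
  obtain ⟨b, hb⟩ := Finset.nonempty_of_ne_empty (fun h0 => hB (support_eq_empty.1 h0))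
  rw [mem_support_iff] at hb
  have key : ∀ s, coeff s B ≠ 0 → ph s = t := by
    intro s hs
    rw [← coeff_sub, h, coeff_monomial] at hs
    by_contra hne
    exact hs (if_neg (fun h' => hne h'.symm))
  refine ⟨b, coeff b B, hb, ?_⟩
  ext s
  rw [coeff_monomial]
  by_cases h1 : b = s
  · rw [if_pos h1, h1]
  · rw [if_neg h1]
    by_contra hs
    exact h1 (ph_inj ((key b hb).trans (key s hs).symm))

theorem not_X_dvd {F : R3} {j : Fin 3} (h : ∃ s ∈ F.support, s j = 0) : ¬ (X j : R3) ∣ F := by
  classical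
  rintro ⟨q, hq⟩
  obtain ⟨s, hs, hj⟩ := h
  rw [mem_support_iff, hq, coeff_X_mul', if_neg (by simpa using hj)] at hs
  exact hs rfl

theorem eq_zero_of_not_X_dvd {b : Fin 3 →₀ ℕ} {u : ℂ}
    (h : ∀ j, ¬ (X j : R3) ∣ monomial b u) : b = 0 := by
  ext j
  by_contra hj
  exact h j (X_dvd_monomial.2 (Or.inr hj))

end RevIrr

open RevIrr in
/-- The transform of an irreducible form is irreducible and not divisible by a variable. -/
theorem rev_irreducible {ν : Fin 3 →₀ ℕ} {d d' : ℕ} (h : d + d' = ν 0 + ν 1 + ν 2) {G : R3}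
    (hG : Irreducible G) (hd : G.IsHomogeneous d) (hν : ∀ s ∈ G.support, s ≤ ν)
    (hmax : ∀ j, ∃ s ∈ G.support, s j = ν j) (hX : ∀ j, ¬ (X j : R3) ∣ G) :
    Irreducible (rev ν G) ∧ ∀ j, ∃ s ∈ (rev ν G).support, s j = 0 := by
  have h1 : ∀ j, ∃ s ∈ (rev ν G).support, s j = 0 := by
    intro j
    obtain ⟨s, hs, hj⟩ := hmax j
    refine ⟨ν - s, ?_, ?_⟩
    · rw [mem_support_iff, coeff_rev hν _ tsub_le_self, tsub_tsub_cancel_of_le (hν s hs)]
      exact mem_support_iff.1 hs
    · rw [Finsupp.tsub_apply, hj, Nat.sub_self]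
  have h2 : ∀ j, ¬ (X j : R3) ∣ rev ν G := fun j => not_X_dvd (h1 j)
  have hrr : rev ν (rev ν G) = G := rev_rev hν
  -- `G` does not divide a monomial
  have hGm : ∀ (μ : Fin 3 →₀ ℕ) (c : ℂ), c ≠ 0 → ¬ G ∣ monomial μ c := by
    intro μ c hc hdvd
    rw [dvd_monomial_iff_exists hc] at hdvd
    obtain ⟨b, u, -, hu, hGb⟩ := hdvd
    have hb : b = 0 := eq_zero_of_not_X_dvd (u := u) (by rw [← hGb]; exact hX)
    have hu0 : u ≠ 0 := by
      rintro rfl
      exact hc (zero_dvd_iff.1 hu)
    apply hG.not_isUnit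
    rw [hGb, hb, monomial_zero']
    exact (isUnit_iff_ne_zero.2 hu0).map C
  refine ⟨⟨?_, ?_⟩, h1⟩
  · -- not a unit
    intro hu
    rw [isUnit_iff_eq_C_of_isReduced] at hu
    obtain ⟨c, hc, hF⟩ := hu
    have h3 : G = monomial ν c := by
      rw [← hrr, hF, ← monomial_zero', rev_monomial, tsub_zero]
    exact hGm ν c (IsUnit.ne_zero hc) (by rw [← h3])
  · -- factors
    have hdF : (rev ν G).IsHomogeneous d' := rev_isHomogeneous h hd hν
    have hsm := sub_mul hdF (support_rev_le (ν := ν) (F := G))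
    rw [hrr] at hsm
    have hprime : Prime G := hG.prime
    have hmon : ((X 0 * X 1 * X 2) ^ d' : R3) = monomial
        (d' • (Finsupp.single 0 1 + Finsupp.single 1 1 + Finsupp.single 2 1)) 1 := by
      simp only [X, monomial_mul, monomial_pow, one_mul, one_pow]
    -- one side
    have key : ∀ A B : R3, rev ν G = A * B → G ∣ sub A → IsUnit B := by
      rintro A B hAB ⟨K, hK⟩
      rw [hAB, map_mul, hK] at hsm
      have hG0 : G ≠ 0 := hG.ne_zero
      have h3 : (K * monomial ν 1) * sub B = monomial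
          (d' • (Finsupp.single 0 1 + Finsupp.single 1 1 + Finsupp.single 2 1)) 1 := by
        rw [← hmon]
        apply mul_left_cancel₀ hG0
        linear_combination hsm
      obtain ⟨t, c, hc, hB⟩ := eq_monomial_of_mul_eq one_ne_zero h3
      obtain ⟨b, u, hu, hBm⟩ := monomial_of_sub hc hB
      have hb : b = 0 := by
        apply eq_zero_of_not_X_dvd (u := u)
        intro j hj
        apply h2 j
        rw [hAB, hBm]
        exact Dvd.dvd.mul_left hj _
      rw [hBm, hb, monomial_zero']
      exact (isUnit_iff_ne_zero.2 hu).map C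
    intro A B hAB
    have hdvd : G ∣ sub A * sub B * monomial ν 1 := by
      rw [← map_mul, ← hAB, hsm]
      exact Dvd.intro_left _ rfl
    rcases hprime.dvd_or_dvd hdvd with h3 | h3
    · rcases hprime.dvd_or_dvd h3 with h4 | h4
      · exact Or.inr (key A B hAB h4)
      · exact Or.inl (key B A (by rw [hAB, mul_comm]) h4)
    · exact absurd h3 (hGm ν 1 one_ne_zero)

end Pool.MP_70e04f_ag.Cre
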